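import Pool.Agent.MP_7c8df0_mp.Mat

/-! Edge models on boxes of the cubic lattice and their transfer matrices. -/

set_option linter.unusedSectionVars false

namespace Pool.Agent.MP_7c8df0_mp
open Matrix Finset

theorem prod_snoc {α : Type} [Monoid α] {n : ℕ} (M : Fin (n + 1) → α) :
    (List.ofFn M).prod = (List.ofFn (Fin.init M)).prod * M (Fin.last n) := by
  rw [List.ofFn_succ', List.prod_concat]; rfl

theorem sum_snoc {σ : Type} [Fintype σ] {n : ℕ} (f : (Fin (n + 1) → σ) → ℕ) :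
    ∑ X, f X = ∑ X : Fin n → σ, ∑ t, f (Fin.snoc (α := fun _ => σ) X t) := by
  rw [Finset.sum_comm, ← Finset.sum_product', Finset.univ_product_univ]
  exact (Fintype.sum_equiv (Fin.snocEquiv fun _ => σ) _ _ fun _ => rfl).symm

theorem path {σ : Type} [Fintype σ] [DecidableEq σ] (n : ℕ) (M : Fin n → Matrix σ σ ℕ)
    (b : σ → σ → ℕ) :
    ∑ X : Fin (n + 1) → σ, b (X 0) (X (Fin.last n)) * ∏ i, M i (X i.castSucc) (X i.succ)
      = ∑ s, ∑ t, b s t * (List.ofFn M).prod s t := by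
  induction n generalizing b with
  | zero =>
    rw [sum_snoc]
    simp [Matrix.one_apply, Fin.snoc]
  | succ n ih =>
    rw [sum_snoc]
    have := ih (Fin.init M) (fun s u => ∑ t, b s t * M (Fin.last n) u t)
    simp only [prod_snoc M, Matrix.mul_apply]
    calc _ = ∑ X : Fin (n + 1) → σ, (∑ t, b (X 0) t * M (Fin.last n) (X (Fin.last n)) t) *
            ∏ i, Fin.init M i (X i.castSucc) (X i.succ) := by
          refine Finset.sum_congr rfl fun X _ => ?_
          rw [Finset.sum_mul]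
          refine Finset.sum_congr rfl fun t _ => ?_
          rw [Fin.prod_univ_castSucc]
          have e0 : Fin.snoc (α := fun _ => σ) X t 0 = X 0 := Fin.snoc_castSucc (α := fun _ => σ) t X 0
          simp only [e0, Fin.snoc_last, Fin.succ_last, Fin.snoc_castSucc, Fin.init,
            ← Fin.castSucc_succ]
          ring
      _ = _ := by
          rw [this]
          refine Finset.sum_congr rfl fun s _ => ?_
          simp only [Finset.sum_mul, Finset.mul_sum]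
          rw [Finset.sum_comm]
          exact Finset.sum_congr rfl fun t _ => Finset.sum_congr rfl fun u _ => by ring

/-- A vertex weight `w xlo xhi ylo yhi zlo zhi` with its symmetries. -/
structure Model (S : Type) where
  ng : S → S
  ng_ng : ∀ s, ng (ng s) = s
  w : S → S → S → S → S → S → ℕ
  w_le : ∀ a b c d e f, w a b c d e f ≤ 1
  s12 : ∀ a b c d e f, w a b c d e f = w c d a b e f
  s23 : ∀ a b c d e f, w a b c d e f = w a b e f c d
  rev : ∀ a b c d e f, w a b c d e f = w b a (ng c) (ng d) (ng e) (ng f)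
  flip : ∀ a b c d e f, w a b c d e f = w a b (ng d) (ng c) e f

variable {S : Type} [Fintype S] [DecidableEq S] (m : Model S)

/-- Number of configurations in a box, with boundary weights on the two ends of each line. -/
def Z (n1 : ℕ) (b1 : S → S → ℕ) (n2 : ℕ) (b2 : S → S → ℕ) (n3 : ℕ) (b3 : S → S → ℕ) : ℕ :=
  ∑ X : Fin (n1 + 1) → Fin n2 → Fin n3 → S, ∑ Y : Fin n1 → Fin (n2 + 1) → Fin n3 → S,
    ∑ U : Fin n1 → Fin n2 → Fin (n3 + 1) → S,
      (∏ j, ∏ k, b1 (X 0 j k) (X (Fin.last n1) j k)) *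
      (∏ i, ∏ k, b2 (Y i 0 k) (Y i (Fin.last n2) k)) *
      (∏ i, ∏ j, b3 (U i j 0) (U i j (Fin.last n3))) *
      ∏ i, ∏ j, ∏ k, m.w (X i.castSucc j k) (X i.succ j k) (Y i j.castSucc k) (Y i j.succ k)
        (U i j k.castSucc) (U i j k.succ)

theorem Z12 (n1 : ℕ) (b1 : S → S → ℕ) (n2 : ℕ) (b2 : S → S → ℕ) (n3 : ℕ) (b3 : S → S → ℕ) :
    Z m n1 b1 n2 b2 n3 b3 = Z m n2 b2 n1 b1 n3 b3 := by
  unfold Z
  rw [Finset.sum_comm]
  refine Fintype.sum_equiv (Equiv.piComm _) _ _ fun Y => ?_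
  refine Fintype.sum_equiv (Equiv.piComm _) _ _ fun X => ?_
  refine Fintype.sum_equiv (Equiv.piComm _) _ _ fun U => ?_
  simp only [Equiv.piComm_apply, Function.swap]
  rw [Finset.prod_comm (f := fun i j => b3 (U i j 0) (U i j (Fin.last n3))),
    Finset.prod_comm (f := fun (i : Fin n1) (j : Fin n2) => ∏ k, m.w (X i.castSucc j k) (X i.succ j k)
      (Y i j.castSucc k) (Y i j.succ k) (U i j k.castSucc) (U i j k.succ))]
  simp only [m.s12 (X _ _ _)]
  ring

theorem Z23 (n1 : ℕ) (b1 : S → S → ℕ) (n2 : ℕ) (b2 : S → S → ℕ) (n3 : ℕ) (b3 : S → S → ℕ) :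
    Z m n1 b1 n2 b2 n3 b3 = Z m n1 b1 n3 b3 n2 b2 := by
  unfold Z
  refine Fintype.sum_equiv (Equiv.piCongrRight fun _ => Equiv.piComm _) _ _ fun X => ?_
  rw [Finset.sum_comm]
  refine Fintype.sum_equiv (Equiv.piCongrRight fun _ => Equiv.piComm _) _ _ fun U => ?_
  refine Fintype.sum_equiv (Equiv.piCongrRight fun _ => Equiv.piComm _) _ _ fun Y => ?_
  simp only [Equiv.piCongrRight_apply, Pi.map_apply, Equiv.piComm_apply, Function.swap]
  rw [Finset.prod_comm (f := fun j k => b1 (X 0 j k) (X (Fin.last n1) j k))]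
  have : ∀ i : Fin n1, ∏ j : Fin n2, ∏ k : Fin n3, m.w (X i.castSucc j k) (X i.succ j k)
      (Y i j.castSucc k) (Y i j.succ k) (U i j k.castSucc) (U i j k.succ)
      = ∏ k : Fin n3, ∏ j : Fin n2, m.w (X i.castSucc j k) (X i.succ j k)
       (U i j k.castSucc) (U i j k.succ) (Y i j.castSucc k) (Y i j.succ k) := by
    intro i
    rw [Finset.prod_comm]
    simp only [m.s23 _ _ (Y _ _ _)]
  simp only [this]
  ring

/-- The layer transfer matrix. -/
def T (n2 : ℕ) (b2 : S → S → ℕ) (n3 : ℕ) (b3 : S → S → ℕ) :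
    Matrix (Fin n2 → Fin n3 → S) (Fin n2 → Fin n3 → S) ℕ := fun s t =>
  ∑ y : Fin (n2 + 1) → Fin n3 → S, ∑ u : Fin n2 → Fin (n3 + 1) → S,
    (∏ k, b2 (y 0 k) (y (Fin.last n2) k)) * (∏ j, b3 (u j 0) (u j (Fin.last n3))) *
      ∏ j, ∏ k, m.w (s j k) (t j k) (y j.castSucc k) (y j.succ k) (u j k.castSucc) (u j k.succ)

theorem Z_eq (n1 : ℕ) (b1 : S → S → ℕ) (n2 : ℕ) (b2 : S → S → ℕ) (n3 : ℕ) (b3 : S → S → ℕ) :
    Z m n1 b1 n2 b2 n3 b3
      = ∑ s, ∑ t, (∏ j, ∏ k, b1 (s j k) (t j k)) * (T m n2 b2 n3 b3 ^ n1) s t := by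
  have := path n1 (fun _ => T m n2 b2 n3 b3) (fun s t => ∏ j, ∏ k, b1 (s j k) (t j k))
  rw [List.ofFn_const, List.prod_replicate] at this
  rw [← this]
  unfold Z
  refine Finset.sum_congr rfl fun X _ => ?_
  simp only [T]
  rw [Finset.prod_univ_sum, Fintype.piFinset_univ, Finset.mul_sum]
  refine Finset.sum_congr rfl fun Y _ => ?_
  rw [Finset.prod_univ_sum, Fintype.piFinset_univ, Finset.mul_sum]
  refine Finset.sum_congr rfl fun U _ => ?_
  simp only [Finset.prod_mul_distrib]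
  ring

/-- Boundary weights invariant under reversing arrows. -/
def Inv (b : S → S → ℕ) : Prop := ∀ s t, b (m.ng s) (m.ng t) = b s t

/-- Arrow reversal as a permutation. -/
def ngE : S ≃ S := ⟨m.ng, m.ng, m.ng_ng, m.ng_ng⟩

theorem T_symm (n2 : ℕ) (b2 : S → S → ℕ) (n3 : ℕ) (b3 : S → S → ℕ) (h2 : Inv m b2)
    (h3 : Inv m b3) : (T m n2 b2 n3 b3)ᵀ = T m n2 b2 n3 b3 := by
  ext s t
  simp only [transpose_apply, T]
  refine Fintype.sum_equiv (Equiv.piCongrRight fun _ => Equiv.piCongrRight fun _ => ngE m) _ _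
    fun y => ?_
  refine Fintype.sum_equiv (Equiv.piCongrRight fun _ => Equiv.piCongrRight fun _ => ngE m) _ _
    fun u => ?_
  simp only [Equiv.piCongrRight_apply, Pi.map_apply, ngE, Equiv.coe_fn_mk, h2 _ _, h3 _ _,
    ← m.rev]

/-- Free ends. -/
def fr : S → S → ℕ := fun _ _ => 1
/-- Periodic ends. -/
def cy : S → S → ℕ := fun s t => if s = t then 1 else 0
/-- Upper end restricted to a set of states. -/
def rs (R : S → Prop) [DecidablePred R] : S → S → ℕ := fun _ t => if R t then 1 else 0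

theorem inv_fr : Inv m fr := fun _ _ => rfl
theorem inv_cy : Inv m cy := fun s t => by
  unfold cy
  have : m.ng s = m.ng t ↔ s = t := (ngE m).injective.eq_iff
  simp only [this]

theorem Z_fr (n1 n2 : ℕ) (b2 : S → S → ℕ) (n3 : ℕ) (b3 : S → S → ℕ) :
    Z m n1 fr n2 b2 n3 b3 = F (T m n2 b2 n3 b3) n1 := by
  simp [Z_eq, F, fr]

theorem Z_cy (n1 n2 : ℕ) (b2 : S → S → ℕ) (n3 : ℕ) (b3 : S → S → ℕ) :
    Z m n1 cy n2 b2 n3 b3 = P (T m n2 b2 n3 b3) n1 := by
  rw [Z_eq, P]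
  refine Finset.sum_congr rfl fun s _ => ?_
  rw [Finset.sum_eq_single s]
  · simp [cy]
  · intro t _ ht
    have : ∃ j k, s j k ≠ t j k := by
      by_contra h
      push Not at h
      exact ht (funext fun j => funext fun k => (h j k).symm)
    obtain ⟨j, k, h⟩ := this
    rw [Finset.prod_eq_zero (Finset.mem_univ j), zero_mul]
    exact Finset.prod_eq_zero (Finset.mem_univ k) (by simp [cy, h])
  · simp

theorem Z_rs (R : S → Prop) [DecidablePred R] (n1 n2 : ℕ) (b2 : S → S → ℕ) (n3 : ℕ)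
    (b3 : S → S → ℕ) : Z m n1 (rs R) n2 b2 n3 b3
      = ∑ s, ∑ t, (if ∀ j k, R (t j k) then 1 else 0) * (T m n2 b2 n3 b3 ^ n1) s t := by
  rw [Z_eq]
  refine Finset.sum_congr rfl fun s _ => Finset.sum_congr rfl fun t _ => ?_
  congr 1
  simp [rs, Finset.prod_ite_zero]

theorem Z_mono (n1 : ℕ) (b1 b1' : S → S → ℕ) (n2 : ℕ) (b2 b2' : S → S → ℕ) (n3 : ℕ)
    (b3 b3' : S → S → ℕ) (h1 : ∀ s t, b1 s t ≤ b1' s t) (h2 : ∀ s t, b2 s t ≤ b2' s t)
    (h3 : ∀ s t, b3 s t ≤ b3' s t) : Z m n1 b1 n2 b2 n3 b3 ≤ Z m n1 b1' n2 b2' n3 b3' := by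
  unfold Z
  gcongr
  · exact h1 _ _
  · exact h2 _ _
  · exact h3 _ _

theorem T_ge (n2 : ℕ) (b2 : S → S → ℕ) (n3 : ℕ) (b3 : S → S → ℕ)
    (s t : Fin n2 → Fin n3 → S) (y : Fin (n2 + 1) → Fin n3 → S) (u : Fin n2 → Fin (n3 + 1) → S)
    (h2 : ∀ k, 1 ≤ b2 (y 0 k) (y (Fin.last n2) k)) (h3 : ∀ j, 1 ≤ b3 (u j 0) (u j (Fin.last n3)))
    (h : ∀ j k, 1 ≤ m.w (s j k) (t j k) (y j.castSucc k) (y j.succ k) (u j k.castSucc)
      (u j k.succ)) : 1 ≤ T m n2 b2 n3 b3 s t := by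
  unfold T
  refine le_trans ?_ (Finset.single_le_sum (fun _ _ => Nat.zero_le _) (Finset.mem_univ y))
  refine le_trans ?_ (Finset.single_le_sum (fun _ _ => Nat.zero_le _) (Finset.mem_univ u))
  refine Nat.mul_pos (Nat.mul_pos ?_ ?_) ?_
  · exact Finset.prod_pos fun k _ => h2 k
  · exact Finset.prod_pos fun j _ => h3 j
  · exact Finset.prod_pos fun j _ => Finset.prod_pos fun k _ => h j k

theorem Z_pos (n1 : ℕ) (b1 : S → S → ℕ) (n2 : ℕ) (b2 : S → S → ℕ) (n3 : ℕ) (b3 : S → S → ℕ)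
    (x y u : S) (h1 : 1 ≤ b1 x x) (h2 : 1 ≤ b2 y y) (h3 : 1 ≤ b3 u u)
    (h : 1 ≤ m.w x x y y u u) : 0 < Z m n1 b1 n2 b2 n3 b3 := by
  unfold Z
  refine lt_of_lt_of_le ?_
    (Finset.single_le_sum (fun _ _ => Nat.zero_le _) (Finset.mem_univ fun _ _ _ => x))
  refine lt_of_lt_of_le ?_
    (Finset.single_le_sum (fun _ _ => Nat.zero_le _) (Finset.mem_univ fun _ _ _ => y))
  refine lt_of_lt_of_le ?_
    (Finset.single_le_sum (fun _ _ => Nat.zero_le _) (Finset.mem_univ fun _ _ _ => u))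
  refine Nat.mul_pos (Nat.mul_pos (Nat.mul_pos ?_ ?_) ?_) ?_
  · exact Finset.prod_pos fun _ _ => Finset.prod_pos fun _ _ => h1
  · exact Finset.prod_pos fun _ _ => Finset.prod_pos fun _ _ => h2
  · exact Finset.prod_pos fun _ _ => Finset.prod_pos fun _ _ => h3
  · exact Finset.prod_pos fun _ _ => Finset.prod_pos fun _ _ => Finset.prod_pos fun _ _ => h

theorem T_le (n2 : ℕ) (b2 : S → S → ℕ) (n3 : ℕ) (b3 : S → S → ℕ) (h2 : ∀ s t, b2 s t ≤ 1)
    (h3 : ∀ s t, b3 s t ≤ 1) (s t : Fin n2 → Fin n3 → S) :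
    T m n2 b2 n3 b3 s t ≤ Fintype.card S ^ ((n2 + 1) * n3 + n2 * (n3 + 1)) := by
  unfold T
  calc _ ≤ ∑ _y : Fin (n2 + 1) → Fin n3 → S, ∑ _u : Fin n2 → Fin (n3 + 1) → S, 1 := by
        refine Finset.sum_le_sum fun y _ => Finset.sum_le_sum fun u _ => ?_
        refine mul_le_one' (mul_le_one' ?_ ?_) ?_
        · exact Finset.prod_le_one' fun _ _ => h2 _ _
        · exact Finset.prod_le_one' fun _ _ => h3 _ _
        · exact Finset.prod_le_one' fun _ _ => Finset.prod_le_one' fun _ _ => m.w_le ..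
    _ = _ := by
        simp only [Finset.sum_const, Finset.card_univ, Fintype.card_fun, Fintype.card_fin,
          smul_eq_mul, mul_one, ← pow_mul, ← pow_add]
        congr 1; ring

/-- One site as a matrix in the third direction. -/
def Wm (a a' y y' : S) : Matrix S S ℕ := fun x x' => m.w a a' y y' x x'

/-- One row as a matrix in the second direction. -/
def A (n3 : ℕ) (b3 : S → S → ℕ) (a a' : Fin n3 → S) : Matrix (Fin n3 → S) (Fin n3 → S) ℕ :=
  fun y y' => ∑ x, ∑ x', b3 x x' * (List.ofFn fun k => Wm m (a k) (a' k) (y k) (y' k)).prod x x'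

/-- Several rows as a matrix in the second direction. -/
def G (n2 n3 : ℕ) (b3 : S → S → ℕ) (s t : Fin n2 → Fin n3 → S) :
    Matrix (Fin n3 → S) (Fin n3 → S) ℕ := (List.ofFn fun j => A m n3 b3 (s j) (t j)).prod

theorem T_eq (n2 : ℕ) (b2 : S → S → ℕ) (n3 : ℕ) (b3 : S → S → ℕ) (s t : Fin n2 → Fin n3 → S) :
    T m n2 b2 n3 b3 s t = ∑ y, ∑ y', (∏ k, b2 (y k) (y' k)) * G m n2 n3 b3 s t y y' := by
  rw [G, ← path n2 (fun j => A m n3 b3 (s j) (t j)) (fun y y' => ∏ k, b2 (y k) (y' k))]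
  unfold T
  refine Finset.sum_congr rfl fun y _ => ?_
  simp only [A, ← path, Wm]
  rw [Finset.prod_univ_sum, Fintype.piFinset_univ, Finset.mul_sum]
  refine Finset.sum_congr rfl fun u _ => ?_
  simp only [Finset.prod_mul_distrib]
  ring

theorem A_flip (n3 : ℕ) (b3 : S → S → ℕ) (a a' y y' : Fin n3 → S) :
    A m n3 b3 a a' y y' = A m n3 b3 a a' (fun k => m.ng (y' k)) (fun k => m.ng (y k)) := by
  have : ∀ a a' y y', Wm m a a' y y' = Wm m a a' (m.ng y') (m.ng y) := by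
    intro a a' y y'; ext x x'; exact m.flip ..
  simp only [A, ← this]

end Pool.Agent.MP_7c8df0_mp
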