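import Pool.Agent.MP_7c8df0_mp.CE4a
import Pool.Agent.MP_7c8df0_mp.CE4b
import Pool.Agent.MP_7c8df0_mp.CE4c
import Pool.Agent.MP_7c8df0_mp.CE4d

/-! Certificate check. -/

set_option maxRecDepth 100000

namespace Pool.Agent.MP_7c8df0_mp.CE4

theorem run : slabRun E2.impl E2.modeP 79 16 16 256 3 2 81122 1 65535 X Y = true :=
  slabRun_of_parts _ _ _ _ _ _ 2 _ _ _ _ _ _ fun s s' =>
    match s, s' with
    | true, true => run_true_true
    | true, false => run_true_false
    | false, true => run_false_true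
    | false, false => run_false_false

theorem cert (n : ℕ) : ∃ L : ℕ, 0 < L ∧ Up (T eul (3 * n) fr 4 cy) L ∧ Real.log L
    ≤ Real.log (2 * Fintype.card (Fin 4 → Bool)) + n * Real.log ((81122 : ℕ) / (1 : ℕ)) :=
  slab_cert E2.impl E2.modeP (by decide) 79 16 16 256 3 2 81122 1 65535 X Y (by decide)
    (by decide) run (by decide +kernel) n

end Pool.Agent.MP_7c8df0_mp.CE4
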