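import Pool.Agent.MP_7c8df0_mp.CE4D

/-! Certificate check. -/

set_option maxRecDepth 100000

namespace Pool.Agent.MP_7c8df0_mp.CE4

theorem run_true_true :
    slabPart E2.impl E2.modeP 79 16 16 256 2 2 81122 1 65535 X Y true true = true := by
  decide +kernel

end Pool.Agent.MP_7c8df0_mp.CE4
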