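import Pool.Agent.MP_7c8df0_mp.Engine

/-! Certificates: test vectors for a transfer matrix and for the slab bound. -/

set_option linter.unusedSectionVars false

namespace Pool.Agent.MP_7c8df0_mp
open Matrix Finset

variable {S : Type} [Fintype S] [DecidableEq S] [Nonempty S] {m : Model S} (I : Impl m)
  {b3 : S → S → ℕ} (M : Mode I b3)

theorem pw_zero (B : ℕ) : pw I B 0 0 = B := by
  show B * I.q ^ (0 + 0) = B
  simp

theorem sum_le_card {ι : Type} [Fintype ι] (f g : ι → ℕ) (V W : ℕ) (hf : ∀ i, f i ≤ V)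
    (hg : ∀ i, g i ≤ W) : ∑ i, f i * g i ≤ Fintype.card ι * (V * W) := by
  calc ∑ i, f i * g i ≤ ∑ _i : ι, V * W := Finset.sum_le_sum fun i _ => Nat.mul_le_mul (hf i) (hg i)
    _ = _ := by simp

/-- Comparison of one entry of the image vector with the test vector. -/
def cwLeaf (up : Bool) (l V : ℕ) (st : ℕ × ℕ) (_ : List (List S)) : Bool :=
  Nat.ble 1 st.2 && Nat.ble st.2 V &&
    cond up (Nat.ble st.1 (Nat.mul l st.2)) (Nat.ble (Nat.mul l st.2) st.1)

/-- Check of a test vector. -/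
noncomputable def cwRun (up : Bool) (B Bv k r l V X : ℕ) : Bool :=
  chkAll I.D (fun (st : ℕ × ℕ) p s => (sp I B 0 st.1 p s, sp I Bv 0 st.2 p s)) (k + 1)
    (cwLeaf up l V) (r + 1) (dot I (fun _ => 1) (k + 1) (full I M B 0 0 Bv k r X) [], X) []

theorem cw_core (hb : ∀ s t, b3 s t ≤ 1) (up : Bool) (B Bv k r l V X : ℕ)
    (h : cwRun I M up B Bv k r l V X = true)
    (hB : Fintype.card S ^ ((r + 1) * (k + 1)) *
      (V * Fintype.card S ^ ((r + 1 + 1) * (k + 1) + (r + 1) * (k + 1 + 1))) < 2 ^ B) :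
    ∃ v : (Fin (r + 1) → Fin (k + 1) → S) → ℕ, ∀ t, 1 ≤ v t ∧ v t ≤ V ∧
      cond up (∑ s, v s * T m (r + 1) fr (k + 1) b3 s t ≤ l * v t)
        (l * v t ≤ ∑ s, v s * T m (r + 1) fr (k + 1) b3 s t) := by
  have h1 := chkAll_spec I.hD _ _ _ _ _ _ h
  set v := vG (sp I Bv 0) (k + 1) (r + 1) X with hv
  have n2 := fun st a => vG_nat (fun (st : ℕ × ℕ) p s => (sp I B 0 st.1 p s, sp I Bv 0 st.2 p s))
    (sp I Bv 0) Prod.snd (fun _ _ _ => rfl) (k + 1) (r + 1) st a
  have n1 := fun st a => vG_nat (fun (st : ℕ × ℕ) p s => (sp I B 0 st.1 p s, sp I Bv 0 st.2 p s))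
    (sp I B 0) Prod.fst (fun _ _ _ => rfl) (k + 1) (r + 1) st a
  simp only [cwLeaf, Bool.and_eq_true, Nat.ble_eq, n1, n2, ← hv] at h1
  have hP : dot I (fun _ => 1) (k + 1) (full I M B 0 0 Bv k r X) []
      = ∑ a, (∏ j : Fin (r + 1), mr I B 0 ((k + 1) * j) (a j)) *
        ∑ s, v s * T m (r + 1) fr (k + 1) b3 s a := by
    have e : ∀ y : Fin (k + 1) → S, mr I 0 0 0 y = 1 := fun y => by simp [mr, pw]
    simp only [dot_eq, full_eq, Tab, one_mul, e, T_eq, fr, Finset.prod_const_one, ← hv,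
      Finset.mul_sum]
    rw [Finset.sum_comm]
    refine Finset.sum_congr rfl fun a _ => ?_
    rw [Finset.sum_comm]
    exact Finset.sum_congr rfl fun s _ => Finset.sum_comm
  have hd := (dec_all I B 0 (k + 1) (r + 1) (fun a => ∑ s, v s * T m (r + 1) fr (k + 1) b3 s a)
    fun a => by
      rw [pw_zero]
      refine lt_of_le_of_lt ((sum_le_card _ _ V _ (fun s => (h1 s).1.2)
        fun s => T_le m _ _ _ _ (fun _ _ => le_rfl) hb s a).trans (le_of_eq ?_)) hB
      simp only [Fintype.card_fun, Fintype.card_fin, ← pow_mul, mul_comm]).1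
  refine ⟨v, fun t => ⟨(h1 t).1.1, (h1 t).1.2, ?_⟩⟩
  have := (h1 t).2
  rw [hP, hd] at this
  cases up
  · exact Nat.le_of_ble_eq_true this
  · exact Nat.le_of_ble_eq_true this

theorem cw_up (hb : ∀ s t, b3 s t ≤ 1) (B Bv k r l V X : ℕ)
    (h : cwRun I M true B Bv k r l V X = true)
    (hB : Fintype.card S ^ ((r + 1) * (k + 1)) *
      (V * Fintype.card S ^ ((r + 1 + 1) * (k + 1) + (r + 1) * (k + 1 + 1))) < 2 ^ B) :
    Up (T m (r + 1) fr (k + 1) b3) l := by
  obtain ⟨v, hv⟩ := cw_core I M hb true B Bv k r l V X h hB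
  exact ⟨_, CWup _ v l (fun t => (hv t).1) fun t => (hv t).2.2⟩

theorem cw_lo (hb : ∀ s t, b3 s t ≤ 1) (B Bv k r l V X : ℕ)
    (h : cwRun I M false B Bv k r l V X = true)
    (hB : Fintype.card S ^ ((r + 1) * (k + 1)) *
      (V * Fintype.card S ^ ((r + 1 + 1) * (k + 1) + (r + 1) * (k + 1 + 1))) < 2 ^ B) :
    Lo (T m (r + 1) fr (k + 1) b3) l := by
  obtain ⟨v, hv⟩ := cw_core I M hb false B Bv k r l V X h hB
  refine ⟨V, fun n => le_trans ?_ (CWlo _ v l V (fun t => (hv t).2.1) (fun t => (hv t).2.2) n)⟩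
  refine Nat.le_mul_of_pos_right _ ?_
  exact Finset.sum_pos (fun t _ => (hv t).1) Finset.univ_nonempty

/-- Index of a word. -/
noncomputable def key (L : List S) : ℕ :=
  List.rec 0 (fun s _ acc => Nat.add (I.dig s) (Nat.mul I.q acc)) L

/-- Entry of a packed positive vector. -/
noncomputable def bet (Bb bs : ℕ) (L : List S) : ℕ := Nat.succ (split bs Bb (key I L))

/-- Block of a packed family of vectors, top row first. -/
noncomputable def look (Mb k : ℕ) (LL : List (List S)) : ℕ → ℕ :=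
  List.rec (fun Y => Y)
    (fun L R ih Y => ih (split Y (pw I Mb 0 (Nat.mul k R.length)) (key I L))) LL

/-- Schur test for one block. -/
noncomputable def slabLeaf2 (B Bb k c d : ℕ) (t : I.Tb k) (φ bs as : ℕ) : Bool :=
  chkRow I.D (sp I B 0) 0
    (fun P L => Nat.ble (Nat.mul d P) (Nat.mul (Nat.mul c φ) (bet I Bb as (L.map m.ng)))) k
    (dot I (bet I Bb bs) k t []) []

/-- All checks for one block. -/
noncomputable def slabLeaf (B Bv Bb Mb k c d V X Y : ℕ) (st : I.Tb k × ℕ) (LL : List (List S)) :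
    Bool :=
  Nat.ble 1 st.2 && Nat.ble st.2 V && Nat.beq st.2 (split X Bv (key I LL.flatten)) &&
    Nat.beq st.2 (split X Bv (key I LL.reverse.flatten)) &&
    slabLeaf2 I B Bb k c d st.1 st.2 (look I Mb k LL.reverse Y) (look I Mb k LL Y)

/-- Check of the data of the slab bound. -/
noncomputable def slabRun (B Bv Bb Mb k r c d V X Y : ℕ) : Bool :=
  chkAll I.D (fun (st : I.Tb (k + 1) × ℕ) p s =>
      (I.mp (fun P => sp I B (k + 1) P p s) (k + 1) st.1, sp I Bv 0 st.2 p s)) (k + 1)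
    (slabLeaf I B Bv Bb Mb (k + 1) c d V X Y) (r + 1) (full I M B (k + 1) B Bv k r X, X) []

/-- One splitting step of the state of the slab check. -/
noncomputable def slabSpl (B Bv k : ℕ) (st : I.Tb k × ℕ) (p : ℕ) (s : S) : I.Tb k × ℕ :=
  (I.mp (fun P => sp I B k P p s) k st.1, sp I Bv 0 st.2 p s)

/-- The part of the slab check with the last two letters fixed. -/
noncomputable def slabPart (B Bv Bb Mb k r c d V X Y : ℕ) (s s' : S) : Bool :=
  chkRow I.D (slabSpl I B Bv (k + 2)) (Nat.mul (k + 2) r)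
    (fun st' L => chkAll I.D (slabSpl I B Bv (k + 2)) (k + 2)
      (slabLeaf I B Bv Bb Mb (k + 2) c d V X Y) r st' [L]) k
    (slabSpl I B Bv (k + 2) (slabSpl I B Bv (k + 2) (full I M B (k + 2) B Bv (k + 1) r X, X)
      (Nat.add (Nat.mul (k + 2) r) (k + 1)) s) (Nat.add (Nat.mul (k + 2) r) k) s') [s', s]

theorem slabRun_of_parts (B Bv Bb Mb k r c d V X Y : ℕ)
    (h : ∀ s s', slabPart I M B Bv Bb Mb k r c d V X Y s s' = true) :
    slabRun I M B Bv Bb Mb (k + 1) r c d V X Y = true :=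
  List.all_eq_true.2 fun s _ => List.all_eq_true.2 fun s' _ => h s s'

theorem slab_cert (hb : ∀ s t, b3 s t ≤ 1) (B Bv Bb Mb k r c d V X Y : ℕ)
    (hd0 : 0 < d) (hdc : d ≤ c) (h : slabRun I M B Bv Bb Mb k r c d V X Y = true)
    (hB : Fintype.card S ^ (k + 1) * (Fintype.card S ^ ((r + 1) * (k + 1)) *
      (V * Fintype.card S ^ ((r + 1 + 1) * (k + 1) + (r + 1) * (k + 1 + 1))) * 2 ^ Bb) < 2 ^ B)
    (n : ℕ) : ∃ L : ℕ, 0 < L ∧ Up (T m ((r + 1) * n) fr (k + 1) b3) L ∧ Real.log L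
      ≤ Real.log (2 * Fintype.card (Fin (k + 1) → S)) + n * Real.log (c / d) := by
  have h1 := chkAll_spec I.hD _ _ _ _ _ _ h
  set φ := vG (sp I Bv 0) (k + 1) (r + 1) X with hφ
  have n2 := fun st a => vG_nat (fun (st : I.Tb (k + 1) × ℕ) p s =>
      (I.mp (fun P => sp I B (k + 1) P p s) (k + 1) st.1, sp I Bv 0 st.2 p s))
    (sp I Bv 0) Prod.snd (fun _ _ _ => rfl) (k + 1) (r + 1) st a
  have n1 := fun (y : Fin (k + 1) → S) st a => vG_nat (fun (st : I.Tb (k + 1) × ℕ) p s =>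
      (I.mp (fun P => sp I B (k + 1) P p s) (k + 1) st.1, sp I Bv 0 st.2 p s))
    (sp I B (k + 1)) (fun st => I.get (k + 1) st.1 (List.ofFn y))
    (fun _ _ _ => I.get_mp _ _ _ _ (by simp)) (k + 1) (r + 1) st a
  simp only [slabLeaf, Bool.and_eq_true, Nat.ble_eq, Nat.beq_eq, n2, ← hφ, List.append_nil] at h1
  set W := Fintype.card S ^ ((r + 1) * (k + 1)) *
      (V * Fintype.card S ^ ((r + 1 + 1) * (k + 1) + (r + 1) * (k + 1 + 1))) with hW
  have hN : ∀ a y y', NB m (r + 1) (k + 1) b3 φ a y y' ≤ W := by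
    intro a y y'
    refine (sum_le_card _ _ V _ (fun s => (h1 s).1.1.1.2) fun s => le_trans ?_
      (T_le m _ fr _ _ (fun _ _ => le_rfl) hb s a)).trans (le_of_eq ?_)
    · simp only [T_eq, fr, Finset.prod_const_one, one_mul]
      exact le_trans (Finset.single_le_sum (f := fun y' => G m (r + 1) (k + 1) b3 s a y y')
        (fun _ _ => Nat.zero_le _) (Finset.mem_univ y'))
        (Finset.single_le_sum (f := fun y => ∑ y', G m (r + 1) (k + 1) b3 s a y y')
        (fun _ _ => Nat.zero_le _) (Finset.mem_univ y))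
    · simp only [hW, Fintype.card_fun, Fintype.card_fin, ← pow_mul, mul_comm]
  have hc : 0 < Fintype.card S := Fintype.card_pos
  have hW2 : W < 2 ^ B := by
    refine lt_of_le_of_lt ?_ hB
    exact (Nat.le_mul_of_pos_right _ (by positivity)).trans (Nat.le_mul_of_pos_left _ (by positivity))
  have hT : ∀ y', Tab I b3 B (k + 1) B Bv (k + 1) (r + 1) X y'
      = ∑ a, (∏ j : Fin (r + 1), mr I B (k + 1) ((k + 1) * j) (a j)) *
        ∑ y, mr I B 0 0 y * NB m (r + 1) (k + 1) b3 φ a y y' := by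
    intro y'
    refine Finset.sum_congr rfl fun a _ => congrArg _ ?_
    simp only [NB, Finset.mul_sum, ← hφ]
    rw [Finset.sum_comm]
    exact Finset.sum_congr rfl fun _ _ => Finset.sum_congr rfl fun _ _ => by ring
  have hd := fun y' => (dec_all I B (k + 1) (k + 1) (r + 1)
    (fun a => ∑ y, mr I B 0 0 y * NB m (r + 1) (k + 1) b3 φ a y y') fun a => by
      have := (dec_row I B 0 0 (k + 1) (fun y => NB m (r + 1) (k + 1) b3 φ a y y')
        fun y => by rw [pw_zero]; exact (hN _ _ _).trans_lt hW2).2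
      simpa [pw] using this).1
  refine slab_up m (r + 1) (k + 1) b3 φ
    (fun a y => bet I Bb (look I Mb (k + 1) (List.ofFn fun j => List.ofFn (a j)).reverse Y)
      (List.ofFn y)) c d hd0 hdc (fun a => (h1 a).1.1.1.1) (fun a => ?_) (fun a y => Nat.succ_pos _)
    (fun a y => ?_) n
  · rw [(h1 a).1.2, (h1 fun j => a j.rev).1.1.2, ofFn_rev fun j => List.ofFn (a j)]
  · have h2 := chkRow_spec I.hD _ _ _ _ _ _ (h1 a).2 y
    simp only [dot_eq, n1, full_eq, hT, hd, List.nil_append, List.append_nil] at h2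
    have e : ∀ β : (Fin (k + 1) → S) → ℕ,
        ∑ y', β y' * ∑ y, mr I B 0 0 y * NB m (r + 1) (k + 1) b3 φ a y y'
        = ∑ y, mr I B 0 0 y * ∑ y', NB m (r + 1) (k + 1) b3 φ a y y' * β y' := by
      intro β
      simp only [Finset.mul_sum]
      rw [Finset.sum_comm]
      exact Finset.sum_congr rfl fun _ _ => Finset.sum_congr rfl fun _ _ => by ring
    rw [e, (dec_row I B 0 0 (k + 1) _ fun y => ?_).1] at h2
    · rw [ofFn_rev fun j => List.ofFn (a j), List.reverse_reverse]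
      rw [List.map_ofFn] at h2
      exact Nat.le_of_ble_eq_true h2
    · rw [pw_zero]
      refine lt_of_le_of_lt ((sum_le_card _ _ W (2 ^ Bb) (fun y' => hN _ _ _)
        fun y' => split_lt _ _ _).trans (le_of_eq ?_)) hB
      simp only [Fintype.card_fun, Fintype.card_fin]

end Pool.Agent.MP_7c8df0_mp
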