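import Mathlib.Data.ZMod.Basic
import Mathlib.Data.Sign.Basic
import Mathlib.SetTheory.Cardinal.Finite

/-! The two counting sequences on the periodic cubic lattice. The edge joining `v` and
`v + e_i` is indexed by the pair `(v, i)`. -/

namespace Pool.Agent.MP_7c8df0_mp

/-- Vertices of the periodic `n × n × n` cubic lattice. -/
abbrev Vtx (n : ℕ) : Type := Fin 3 → ZMod n

/-- The state `o (v, i)` of the edge from `v` to `v + e_i` is `1` (arrow towards `v + e_i`),
`-1` (arrow towards `v`) or `0` (no arrow). `iceDeg o v 1`, `iceDeg o v (-1)`, `iceDeg o v 0`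
count the edges at `v` pointing out of `v`, into `v`, and unoriented. -/
def iceDeg {n : ℕ} (o : Vtx n × Fin 3 → SignType) (v : Vtx n) (s : SignType) : ℕ :=
  (Finset.univ.filter fun i : Fin 3 => o (v, i) = s).card +
    (Finset.univ.filter fun i : Fin 3 => o (v - Pi.single i 1, i) = -s).card

/-- The number `a_n` of ice-rule configurations (two out, two in, two unoriented). -/
noncomputable def iceCount (n : ℕ) : ℕ :=
  Nat.card {o : Vtx n × Fin 3 → SignType //
    ∀ v, iceDeg o v 1 = 2 ∧ iceDeg o v (-1) = 2 ∧ iceDeg o v 0 = 2}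

/-- The state `o (v, i)` of the edge from `v` to `v + e_i` is `true` (arrow towards `v + e_i`)
or `false` (arrow towards `v`). `eulDeg o v true` and `eulDeg o v false` count the edges at `v`
pointing out of `v` and into `v`. -/
def eulDeg {n : ℕ} (o : Vtx n × Fin 3 → Bool) (v : Vtx n) (s : Bool) : ℕ :=
  (Finset.univ.filter fun i : Fin 3 => o (v, i) = s).card +
    (Finset.univ.filter fun i : Fin 3 => o (v - Pi.single i 1, i) = !s).card

/-- The number `b_n` of Eulerian orientations (three out, three in). -/
noncomputable def eulCount (n : ℕ) : ℕ :=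
  Nat.card {o : Vtx n × Fin 3 → Bool // ∀ v, eulDeg o v true = 3 ∧ eulDeg o v false = 3}

end Pool.Agent.MP_7c8df0_mp
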