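import Pool.Agent.MP_7c8df0_mp.Lim
import Pool.Agent.MP_7c8df0_mp.Defs

/-! The two models, the link with the torus counts, and existence of the limits. -/

set_option linter.unusedSectionVars false

namespace Pool.Agent.MP_7c8df0_mp
open Matrix Finset Filter

section bridge
variable {S : Type} [Fintype S] [DecidableEq S] (m : Model S)

/-- Cyclic predecessor of an edge position. -/
def pc {k : ℕ} : Fin (k + 2) → Fin (k + 1) := Fin.cons (Fin.last k) id

theorem pc_succ {k : ℕ} (i : Fin (k + 1)) : pc i.succ = i := by simp [pc]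
theorem pc_zero {k : ℕ} : pc (0 : Fin (k + 2)) = Fin.last k := by simp [pc]
theorem pc_last {k : ℕ} : pc (Fin.last (k + 1)) = Fin.last k := by
  rw [← Fin.succ_last, pc_succ]
theorem pc_cast {k : ℕ} (i : Fin (k + 1)) : pc i.castSucc = i - 1 := by
  refine Fin.cases ?_ (fun j => ?_) i
  · rw [Fin.castSucc_zero, pc_zero, zero_sub]
    rw [eq_neg_iff_add_eq_zero]; exact Fin.last_add_one k
  · rw [Fin.castSucc_succ, pc_succ, eq_sub_iff_add_eq, Fin.coeSucc_eq_succ]

theorem ext_pc {k : ℕ} {α : Type} (f : Fin (k + 2) → α) (h : f 0 = f (Fin.last (k + 1)))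
    (e : Fin (k + 2)) : f (pc e).succ = f e := by
  refine Fin.cases ?_ (fun j => ?_) e
  · rw [pc_zero, Fin.succ_last, h]
  · rw [pc_succ]

theorem vec_sub0 {k : ℕ} (a b c : Fin (k + 1)) :
    (![a, b, c] : Fin 3 → Fin (k + 1)) - Pi.single 0 1 = ![a - 1, b, c] := by
  funext i; fin_cases i <;> simp
theorem vec_sub1 {k : ℕ} (a b c : Fin (k + 1)) :
    (![a, b, c] : Fin 3 → Fin (k + 1)) - Pi.single 1 1 = ![a, b - 1, c] := by
  funext i; fin_cases i <;> simp
theorem vec_sub2 {k : ℕ} (a b c : Fin (k + 1)) :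
    (![a, b, c] : Fin 3 → Fin (k + 1)) - Pi.single 2 1 = ![a, b, c - 1] := by
  funext i; fin_cases i <;> simp

theorem vec_eta {k : ℕ} (v : Fin 3 → Fin (k + 1)) : v = ![v 0, v 1, v 2] := by
  funext i; fin_cases i <;> rfl

theorem bridge (k : ℕ) : Z m (k + 1) cy (k + 1) cy (k + 1) cy =
    Nat.card {o : (Fin 3 → Fin (k + 1)) × Fin 3 → S // ∀ v, m.w (o (v - Pi.single 0 1, 0)) (o (v, 0))
      (o (v - Pi.single 1 1, 1)) (o (v, 1)) (o (v - Pi.single 2 1, 2)) (o (v, 2)) = 1} := by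
  classical
  have hw : ∀ a b c d e f, m.w a b c d e f = if m.w a b c d e f = 1 then 1 else 0 := by
    intro a b c d e f
    have := m.w_le a b c d e f
    split_ifs <;> omega
  rw [Nat.card_eq_fintype_card, Fintype.card_subtype]
  unfold Z
  rw [← Finset.sum_product', ← Finset.sum_product']
  conv_lhs => enter [2, x]; enter [2, 2, i, 2, j, 2, l]; rw [hw]
  simp only [cy, Finset.prod_ite_zero, Finset.prod_const_one, Finset.mem_univ, true_imp_iff,
    ite_zero_mul_ite_zero, mul_one, Finset.univ_product_univ]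
  rw [Finset.sum_boole, Nat.cast_id]
  symm
  refine Finset.card_bij'
    (fun o _ => ((fun e j l => o (![pc e, j, l], 0), fun i e l => o (![i, pc e, l], 1)),
      fun i j e => o (![i, j, pc e], 2)))
    (fun x _ => fun p => ![x.1.1 (Fin.succ (p.1 0)) (p.1 1) (p.1 2),
      x.1.2 (p.1 0) (Fin.succ (p.1 1)) (p.1 2), x.2 (p.1 0) (p.1 1) (Fin.succ (p.1 2))] p.2)
    ?_ ?_ ?_ ?_
  · intro o ho
    simp only [Finset.mem_filter, Finset.mem_univ, true_and] at ho ⊢
    simp only [pc_zero, pc_last, pc_succ, pc_cast, implies_true, true_and]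
    intro i j l
    have := ho ![i, j, l]
    rwa [vec_sub0, vec_sub1, vec_sub2] at this
  · intro x hx
    simp only [Finset.mem_filter, Finset.mem_univ, true_and] at hx ⊢
    obtain ⟨⟨⟨h1, h2⟩, h3⟩, h4⟩ := hx
    intro v
    obtain ⟨a, b, c, rfl⟩ : ∃ a b c : Fin (k + 1), v = ![a, b, c] := ⟨_, _, _, vec_eta v⟩
    rw [vec_sub0, vec_sub1, vec_sub2, ← pc_cast, ← pc_cast, ← pc_cast]
    have e1 := ext_pc (fun e => x.1.1 e b c) (h1 b c) a.castSucc
    have e2 := ext_pc (fun e => x.1.2 a e c) (h2 a c) b.castSucc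
    have e3 := ext_pc (fun e => x.2 a b e) (h3 a b) c.castSucc
    have := h4 a b c
    rw [← e1, ← e2, ← e3] at this
    exact this
  · intro o _
    funext ⟨v, d⟩
    obtain ⟨a, b, c, rfl⟩ : ∃ a b c : Fin (k + 1), v = ![a, b, c] := ⟨_, _, _, vec_eta v⟩
    fin_cases d <;> simp [pc_succ]
  · intro x hx
    simp only [Finset.mem_filter, Finset.mem_univ, true_and] at hx
    obtain ⟨⟨⟨h1, h2⟩, h3⟩, -⟩ := hx
    refine Prod.ext (Prod.ext ?_ ?_) ?_
    · funext e b c; exact ext_pc (fun e => x.1.1 e b c) (h1 b c) e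
    · funext a e c; exact ext_pc (fun e => x.1.2 a e c) (h2 a c) e
    · funext a b e; exact ext_pc (fun e => x.2 a b e) (h3 a b) e

end bridge

/-- Eulerian orientations. -/
def eul : Model Bool where
  ng := not
  ng_ng := by decide
  w a b c d e f := if a.toNat + c.toNat + e.toNat = b.toNat + d.toNat + f.toNat then 1 else 0
  w_le := by decide
  s12 := by decide
  s23 := by decide
  rev := by decide
  flip := by decide

/-- Number of entries equal to `s` among six states. -/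
def cnt (s a b c d e f : SignType) : ℕ :=
  (if b = s then 1 else 0) + (if d = s then 1 else 0) + (if f = s then 1 else 0) +
  ((if a = -s then 1 else 0) + (if c = -s then 1 else 0) + (if e = -s then 1 else 0))

/-- The two-in two-out two-empty model. -/
def ice : Model SignType where
  ng := fun s => -s
  ng_ng := by decide
  w a b c d e f := if cnt 1 a b c d e f = 2 ∧ cnt (-1) a b c d e f = 2 ∧ cnt 0 a b c d e f = 2
    then 1 else 0
  w_le := by decide +kernel
  s12 := by decide +kernel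
  s23 := by decide +kernel
  rev := by decide +kernel
  flip := by decide +kernel

theorem eulCount_eq (k : ℕ) : eulCount (k + 1) = Z eul (k + 1) cy (k + 1) cy (k + 1) cy := by
  rw [bridge, eulCount]
  refine Nat.card_congr (Equiv.subtypeEquivRight fun o => forall_congr' fun v => ?_)
  simp only [eulDeg, Finset.card_filter, Fin.sum_univ_three]
  have key : ∀ a b c d e f : Bool, (((if b = true then 1 else 0) + (if d = true then 1 else 0) +
      (if f = true then 1 else 0) + ((if a = !true then 1 else 0) + (if c = !true then 1 else 0) +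
      (if e = !true then 1 else 0)) = 3) ∧ ((if b = false then 1 else 0) +
      (if d = false then 1 else 0) + (if f = false then 1 else 0) +
      ((if a = !false then 1 else 0) + (if c = !false then 1 else 0) +
      (if e = !false then 1 else 0)) = 3)) ↔ eul.w a b c d e f = 1 := by decide
  exact key _ _ _ _ _ _

theorem iceCount_eq (k : ℕ) : iceCount (k + 1) = Z ice (k + 1) cy (k + 1) cy (k + 1) cy := by
  rw [bridge, iceCount]
  refine Nat.card_congr (Equiv.subtypeEquivRight fun o => forall_congr' fun v => ?_)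
  simp only [iceDeg, Finset.card_filter, Fin.sum_univ_three]
  have key : ∀ a b c d e f : SignType, (cnt 1 a b c d e f = 2 ∧ cnt (-1) a b c d e f = 2 ∧
      cnt 0 a b c d e f = 2) ↔ ice.w a b c d e f = 1 := by
    intro a b c d e f
    simp [ice]
  exact key _ _ _ _ _ _

theorem eul_const : Const eul := ⟨true, true, true, by decide⟩
theorem ice_const : Const ice := ⟨1, 1, 0, by decide⟩

theorem eul_tendsto : Tendsto (fun n : ℕ => (eulCount n : ℝ) ^ ((1:ℝ) / (n:ℝ) ^ 3)) atTop
    (nhds (Real.exp (ent eul))) := by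
  have e : (rs (fun _ => True) : Bool → Bool → ℕ) = fr := by funext s t; simp [rs, fr]
  have := tendsto_ent eul eul_const (fun p => z eul p fr p fr p fr) (fun n => by
    have := torus_ge eul (fun _ => True) (fun _ => True) (fun _ => True) (by simp) (by simp)
      ⟨true, true, true, by decide⟩ ⟨true, true, by decide⟩ ⟨true, true, by decide⟩
      ⟨true, true, by decide⟩ n
    rwa [e] at this) (fun ε hε => ⟨0, fun p _ => by
      have := ent_le eul p p p
      have h : (0:ℝ) ≤ (p:ℝ) ^ 3 * ε := by positivity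
      nlinarith⟩)
  rw [← Filter.tendsto_add_atTop_iff_nat 1] at this ⊢
  simpa only [eulCount_eq] using this

/-- Sign carried by the path through a site. -/
def sig (Q : ℕ → SignType) : ℕ → SignType
  | 0 => if Q 0 ≠ 0 then Q 0 else 1
  | x + 1 => if Q (x + 1) ≠ 0 then Q (x + 1) else sig Q x

/-- One step of the clearing dynamics. -/
def stp (Q : ℕ → SignType) (x : ℕ) : SignType := if Q (x + 1) ≠ 0 then sig Q x else 0

/-- Horizontal edges in the clearing dynamics. -/
def hor (Q : ℕ → SignType) (e : ℕ) : SignType := if Q e ≠ 0 then 0 else sig Q e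

theorem sig_ne (Q : ℕ → SignType) (x : ℕ) : sig Q x ≠ 0 := by
  induction x with
  | zero => unfold sig; split_ifs with h; exacts [h, by decide]
  | succ x ih => unfold sig; split_ifs with h; exacts [h, ih]

theorem sig_eq (Q : ℕ → SignType) (x : ℕ) (h : Q x ≠ 0) : sig Q x = Q x := by
  cases x <;> simp [sig, h]

theorem stp_ok (Q : ℕ → SignType) (x : ℕ) :
    1 ≤ ice.w (Q x) (stp Q x) (hor Q x) (hor Q (x + 1)) 1 1 := by
  have h1 := sig_ne Q x
  have h2 := sig_eq Q x
  have h3 : hor Q (x + 1) = if Q (x + 1) ≠ 0 then 0 else sig Q x := by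
    unfold hor; split_ifs with h
    · rfl
    · rw [sig, if_neg h]
  rw [h3]
  clear h3
  unfold stp hor
  generalize sig Q x = s at *
  generalize Q (x + 1) = b at *
  generalize Q x = a at *
  revert a b s
  decide

theorem stp_iter (t : ℕ) (Q : ℕ → SignType) (x : ℕ) : stp^[t] Q x ≠ 0 ↔ Q (x + t) ≠ 0 := by
  induction t generalizing x with
  | zero => simp
  | succ t ih =>
    rw [Function.iterate_succ_apply', stp, ← add_assoc, add_right_comm, ← ih (x + 1)]
    split_ifs with h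
    · simp only [sig_ne, ne_eq, not_false_eq_true, true_iff]; exact h
    · simp only [ne_eq, not_true_eq_false, false_iff]; exact h

theorem clear (qi : SignType) (R : SignType → Prop) [DecidablePred R]
    (hR : ∀ t, (t ≠ 0 ↔ qi ≠ 0) → R t) (k l : ℕ) (b2 b3 : SignType → SignType → ℕ)
    (h2 : ∀ s t, (qi ≠ 0 → t = 0) → 1 ≤ b2 s t) (h3 : 1 ≤ b3 1 1) (n : ℕ) :
    Z ice n fr k b2 l b3 ≤ Z ice (n + k) (rs R) k b2 l b3 := by
  rw [Z_fr, Z_rs]
  refine I5 _ _ k (fun s => ?_) n
  let Q0 : Fin l → ℕ → SignType := fun c e => if h : e < k then s ⟨e, h⟩ c else qi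
  let Q : ℕ → Fin k → Fin l → SignType := fun t j c => stp^[t] (Q0 c) j
  have hs : Q 0 = s := by funext j c; simp [Q, Q0]
  have hq : ∀ c e, k ≤ e → Q0 c e = qi := fun c e he => dif_neg (by omega)
  refine ⟨Q k, ?_⟩
  rw [if_pos, one_mul, ← hs]
  · refine chain _ Q (fun t => ?_) k
    refine T_ge ice _ _ _ _ _ _ (fun e c => hor (stp^[t] (Q0 c)) e) (fun _ _ => 1)
      (fun c => h2 _ _ fun h => ?_) (fun _ => h3) fun j c => ?_
    · rw [hor, if_pos]
      rw [stp_iter, hq c _ (by simp)]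
      exact h
    · simp only [Q, Function.iterate_succ_apply']
      exact stp_ok _ j
  · intro j c
    refine hR _ ?_
    rw [stp_iter, hq c _ (by omega)]

theorem ice_low (M p : ℕ) (hM : 0 < M) (hp : 2 * M ^ 2 ≤ p) :
    (p:ℝ) ^ 3 * ent ice - p ^ 3 * ((ent ice + 2 * LS SignType) / M) - 6 * M ^ 2 * p ^ 2 * ent ice
      ≤ z ice p (rs (· ≠ 0)) p (rs (· = 0)) p (rs (· ≠ 0)) := by
  obtain ⟨a, rfl⟩ : ∃ a, p = a + M ^ 2 := ⟨p - M ^ 2, by omega⟩
  obtain ⟨b, hb⟩ : ∃ b, M ^ 2 = b + M := ⟨M ^ 2 - M, by have := Nat.le_self_pow two_ne_zero M; omega⟩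
  have i1 : Inv ice (rs (· ≠ 0)) := inv_rs ice _ (by decide)
  have i2 : Inv ice (rs (· = 0)) := inv_rs ice _ (by decide)
  set K := (a + M ^ 2) / (2 * M ^ 2) with hK
  have hK1 : 2 * M ^ 2 * K ≤ a + M ^ 2 := Nat.mul_div_le _ _
  have hK2 : a + M ^ 2 < 2 * M ^ 2 * (K + 1) := Nat.lt_mul_div_succ _ (by positivity)
  have s5 := J4 ice i1 i1 (n2 := a + M ^ 2) (n3 := a + M ^ 2) 0 1 1 (by decide) (by decide)
    (by decide) hK1
  have s4 : z ice a fr (M ^ 2) (rs (· = 0)) (a + M ^ 2) (rs (· ≠ 0)) ≤ _ :=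
    z_le ice (Z_pos ice _ _ _ _ _ _ 1 0 1 (by decide) (by decide) (by decide) (by decide))
    (clear 1 (· ≠ 0) (by decide) _ _ _ _ (by decide) (by decide) a)
  have s3 : z ice a fr (M ^ 2) (rs (· = 0)) a fr ≤ _ :=
    z_le ice (Z_pos ice _ _ _ _ _ _ 1 0 1 (by decide) (by decide) (by decide) (by decide))
    (clear 1 (· ≠ 0) (by decide) _ _ _ _ (by decide) (by decide) a)
  have s2 := J0 ice i2 (inv_fr ice) (n2 := M ^ 2) (n3 := a) M a hM
    (Z_pos ice _ _ _ _ _ _ 1 0 1 (by decide) (by decide) (by decide) (by decide))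
  have s1 : z ice b fr M fr a fr ≤ _ :=
    z_le ice (ice_const.pos _ _ _ fr1 fr1 fr1)
    (clear 0 (· = 0) (by decide) _ _ _ _ (by decide) (by decide) b)
  have s0 := ent_le ice b M a
  rw [← hb, z12 ice (M ^ 2)] at s1
  rw [z13 ice (a + M ^ 2)] at s3
  rw [z12 ice (M ^ 2), z12 ice (a + M ^ 2) (rs (· = 0))] at s5
  have hL : 0 ≤ LS SignType := LS_nonneg
  have hh := ent_nonneg ice
  generalize LS SignType = L at *
  generalize ent ice = h at *
  have M0 : (0:ℝ) < M := by exact_mod_cast hM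
  have M1 : (1:ℝ) ≤ M := by exact_mod_cast hM
  have hb' : (b:ℝ) = M ^ 2 - M := by
    have : ((M ^ 2 : ℕ) : ℝ) = (b + M : ℕ) := by rw [hb]
    push_cast at this; linarith
  have k1 : 2 * (M:ℝ) ^ 2 * K ≤ a + M ^ 2 := by exact_mod_cast hK1
  have k2 : (a:ℝ) + M ^ 2 ≤ 2 * M ^ 2 * (K + 1) := by exact_mod_cast hK2.le
  have ha : (M:ℝ) ^ 2 ≤ a := by exact_mod_cast (by omega : M ^ 2 ≤ a)
  have a0 : (0:ℝ) ≤ a := Nat.cast_nonneg a
  have K0 : (0:ℝ) ≤ K := Nat.cast_nonneg K
  push_cast at *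
  rw [hb'] at s0
  have t2 : (a:ℝ) ^ 2 * (h * (M ^ 2 - M) - M * L) ≤ z ice a fr (M ^ 2) (rs (· = 0)) a fr := by
    refine le_of_mul_le_mul_left ?_ M0
    have := mul_le_mul_of_nonneg_left (s0.trans s1) a0
    nlinarith
  have t5 := mul_le_mul_of_nonneg_left (t2.trans (s3.trans s4)) (mul_nonneg zero_le_two K0)
  refine le_trans ?_ (show 2 * K * ((a:ℝ) ^ 2 * (h * (M ^ 2 - M) - M * L))
    - K * ((a + M ^ 2) * (a + M ^ 2) * L) ≤ _ by linarith)
  set p : ℝ := a + M ^ 2 with hp'
  have p0 : 0 ≤ p := by positivity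
  have ap : (a:ℝ) ≤ p := by rw [hp']; nlinarith
  have u1 : p ^ 3 - 6 * M ^ 2 * p ^ 2 ≤ 2 * M ^ 2 * K * a ^ 2 := by
    have : (p - 2 * M ^ 2) * a ^ 2 ≤ 2 * M ^ 2 * K * a ^ 2 := by gcongr; linarith
    refine le_trans ?_ this
    have e : (a:ℝ) = p - M ^ 2 := by rw [hp']; ring
    have m2 : (0:ℝ) ≤ M ^ 2 := by positivity
    rw [e]
    have hp2 : 2 * (M:ℝ) ^ 2 ≤ p := by linarith
    generalize (M:ℝ) ^ 2 = x at *
    nlinarith [mul_nonneg m2 (mul_nonneg p0 p0), mul_nonneg (mul_nonneg m2 m2) p0,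
      mul_nonneg (mul_nonneg m2 m2) (sub_nonneg.2 hp2)]
  have u2 : 2 * M * K * (a:ℝ) ^ 2 ≤ p ^ 3 / M := by
    rw [le_div_iff₀ M0]
    calc 2 * M * K * (a:ℝ) ^ 2 * M = (2 * M ^ 2 * K) * a ^ 2 := by ring
      _ ≤ p * p ^ 2 := by gcongr
      _ = _ := by ring
  have u3 : K * (p * p) ≤ p ^ 3 / M := by
    rw [le_div_iff₀ M0]
    calc K * (p * p) * M = (M * K) * p ^ 2 := by ring
      _ ≤ p * p ^ 2 := by gcongr; nlinarith
      _ = _ := by ring
  have v1 := mul_le_mul_of_nonneg_right u1 hh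
  have v2 := mul_le_mul_of_nonneg_right u2 hh
  have v3 := mul_le_mul_of_nonneg_right u2 hL
  have v4 := mul_le_mul_of_nonneg_right u3 hL
  have : p ^ 3 * ((h + 2 * L) / M) = p ^ 3 / M * h + 2 * (p ^ 3 / M * L) := by ring
  rw [this]
  nlinarith

theorem ice_tendsto : Tendsto (fun n : ℕ => (iceCount n : ℝ) ^ ((1:ℝ) / (n:ℝ) ^ 3)) atTop
    (nhds (Real.exp (ent ice))) := by
  have := tendsto_ent ice ice_const
    (fun p => z ice p (rs (· ≠ 0)) p (rs (· = 0)) p (rs (· ≠ 0)))
    (torus_ge ice (· ≠ 0) (· = 0) (· ≠ 0) (by decide) (by decide)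
      ⟨1, 0, 1, by decide⟩ ⟨1, 0, by decide⟩ ⟨1, 0, by decide⟩ ⟨1, 1, by decide⟩)
    (fun ε hε => by
      have hL : 0 ≤ LS SignType := LS_nonneg
      have hh := ent_nonneg ice
      obtain ⟨M, hM⟩ := exists_nat_gt ((ent ice + 2 * LS SignType) / (ε / 2))
      have M0 : (0:ℝ) < M := lt_of_le_of_lt (by positivity) hM
      obtain ⟨N, hN⟩ := exists_nat_gt (6 * M ^ 2 * ent ice / (ε / 2))
      refine ⟨2 * M ^ 2 + N, fun p hp => le_trans ?_
        (ice_low M p (by exact_mod_cast M0) (by omega))⟩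
      have hN' : (N:ℝ) ≤ p := by exact_mod_cast (by omega : N ≤ p)
      rw [div_lt_iff₀ (by positivity)] at hM hN
      have h1 : (ent ice + 2 * LS SignType) / M ≤ ε / 2 := by
        rw [div_le_iff₀ M0]; linarith
      have p0 : (0:ℝ) ≤ p := Nat.cast_nonneg p
      have h2 : 6 * M ^ 2 * ent ice ≤ p * (ε / 2) := by nlinarith
      have h3 := mul_le_mul_of_nonneg_left h1 (pow_nonneg p0 3)
      have h4 := mul_le_mul_of_nonneg_left h2 (pow_nonneg p0 2)
      nlinarith)
  rw [← Filter.tendsto_add_atTop_iff_nat 1] at this ⊢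
  simpa only [iceCount_eq] using this

end Pool.Agent.MP_7c8df0_mp
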