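import Pool.Agent.MP_7c8df0_mp.Check
import Pool.Agent.MP_7c8df0_mp.Models

/-! Tables with 2 branches. -/

set_option linter.unusedVariables false
set_option linter.unusedSimpArgs false

noncomputable section
namespace Pool.Agent.MP_7c8df0_mp.E2
open Finset

/-- One entry for each edge state. -/
structure C (α : Type) where
  (a b : α)

/-- Tables of depth `d`. -/
def Tb (d : ℕ) : Type := Nat.rec ℕ (fun _ α => C α) d

/-- Entry at a state. -/
def sel {α : Type} (t : C α) (s : Bool) : α := Bool.rec t.b t.a s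

/-- Digit of a state. -/
def dig (s : Bool) : ℕ := Bool.rec 1 0 s

/-- Entry at a word. -/
def get (d : ℕ) : Tb d → List Bool → ℕ :=
  Nat.rec (motive := fun d => Tb d → List Bool → ℕ) (fun n _ => n)
    (fun _ ih t l => List.casesOn l 0 fun s l => ih (sel t s) l) d

theorem sumq (f : Bool → ℕ) : ∑ s, f s = f true + f false := by
  simp

/-- Site operation, last stage. -/
def k3 (o00 o01 o11 : ℕ) : C (C ℕ) :=
  C.mk (C.mk o00 o01) (C.mk o01 o11)

/-- Site operation, middle stage. -/
def k2 (m1 : ℕ) (s000 s001 s011 s111 : ℕ) : C (C ℕ) :=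
  k3 (Nat.add s000 (Nat.shiftLeft s001 m1)) (Nat.add s001 (Nat.shiftLeft s011 m1)) (Nat.add s011 (Nat.shiftLeft s111 m1))

/-- Site operation in a later row. -/
def kB (m1 : ℕ) (t00 t01 t10 t11 : C ℕ) : C (C ℕ) :=
  k2 m1 t00.a (Nat.add (Nat.add t00.b t01.a) t10.a) (Nat.add (Nat.add t01.b t10.b) t11.a) t11.b

/-- Site operation in the first row, second stage. -/
def kA2 (m1 n1 : ℕ) (p00 p01 p11 : ℕ) : C (C ℕ) :=
  k2 m1 p00 (Nat.add p01 (Nat.shiftLeft p00 n1)) (Nat.add p11 (Nat.shiftLeft p01 n1)) (Nat.shiftLeft p11 n1)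

/-- Site operation in the first row. -/
def kA (m1 n1 : ℕ) (a b : C ℕ) : C (C ℕ) :=
  kA2 m1 n1 a.a (Nat.add a.b b.a) b.b

theorem kB_eq (sh : ℕ) (t : Bool → Bool → C ℕ) (y' x' : Bool) :
    sel (sel (kB (Nat.mul sh 1) (t true true) (t true false) (t false true) (t false false)) y') x'
    = ∑ a, 2 ^ (sh * dig a) * ∑ a', ∑ y, ∑ x, eul.w a' a y y' x x' * sel (t a' y) x := by
  cases y' <;> cases x' <;>
    simp +decide only [sumq, eul, ite_true, ite_false, kB, k2, k3, sel, dig, Nat.add_eq, Nat.mul_eq,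
      Nat.shiftLeft_eq', Nat.shiftLeft_eq] <;> ring

theorem kA_eq (sh sy : ℕ) (t : Bool → C ℕ) (y' x' : Bool) :
    sel (sel (kA (Nat.mul sh 1) (Nat.mul sy 1) (t true) (t false)) y') x'
    = ∑ a, 2 ^ (sh * dig a) * ∑ a', ∑ y, ∑ x, eul.w a' a y y' x x' *
      (2 ^ (sy * dig y) * sel (t a') x) := by
  cases y' <;> cases x' <;>
    simp +decide only [sumq, eul, ite_true, ite_false, kA, kA2, k2, k3, sel, dig, Nat.add_eq,
      Nat.mul_eq, Nat.shiftLeft_eq', Nat.shiftLeft_eq] <;> ring

/-- Site operation on tables, later row. -/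
def zB (m1 : ℕ) (d : ℕ) : Tb (d + 1) → Tb (d + 1) → Tb (d + 1) → Tb (d + 1) → Tb (d + 2) :=
  Nat.rec (motive := fun d => Tb (d + 1) → Tb (d + 1) → Tb (d + 1) → Tb (d + 1) → Tb (d + 2))
    (kB m1)
    (fun _ ih t00 t01 t10 t11 => C.mk (ih (C.a t00) (C.a t01) (C.a t10) (C.a t11)) (ih (C.b t00) (C.b t01) (C.b t10) (C.b t11))) d

/-- Site operation on tables, first row. -/
def zA (m1 n1 : ℕ) (d : ℕ) : Tb (d + 1) → Tb (d + 1) → Tb (d + 2) :=
  Nat.rec (motive := fun d => Tb (d + 1) → Tb (d + 1) → Tb (d + 2))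
    (kA m1 n1)
    (fun _ ih a b => C.mk (ih (C.a a) (C.a b)) (ih (C.b a) (C.b b))) d

theorem zB_eq (sh d : ℕ) (t : Bool → Bool → Tb (d + 1)) (l : List Bool) (y' x' : Bool)
    (hl : l.length = d) :
    get (d + 2) (zB (Nat.mul sh 1) d (t true true) (t true false) (t false true) (t false false)) (l ++ [y', x'])
    = ∑ a, 2 ^ (sh * dig a) * ∑ a', ∑ y, ∑ x, eul.w a' a y y' x x' *
      get (d + 1) (t a' y) (l ++ [x]) := by
  induction d generalizing l with
  | zero =>
    obtain rfl := List.length_eq_zero_iff.1 hl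
    exact kB_eq sh t y' x'
  | succ d ih =>
    obtain ⟨s, l, rfl⟩ := List.exists_cons_of_length_eq_add_one hl
    have h := ih (fun a y => sel (t a y) s) l (Nat.succ.inj hl)
    cases s <;> exact h

theorem zA_eq (sh sy d : ℕ) (t : Bool → Tb (d + 1)) (l : List Bool) (y' x' : Bool)
    (hl : l.length = d) :
    get (d + 2) (zA (Nat.mul sh 1) (Nat.mul sy 1) d (t true) (t false)) (l ++ [y', x'])
    = ∑ a, 2 ^ (sh * dig a) * ∑ a', ∑ y, ∑ x, eul.w a' a y y' x x' *
      (2 ^ (sy * dig y) * get (d + 1) (t a') (l ++ [x])) := by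
  induction d generalizing l with
  | zero =>
    obtain rfl := List.length_eq_zero_iff.1 hl
    exact kA_eq sh sy t y' x'
  | succ d ih =>
    obtain ⟨s, l, rfl⟩ := List.exists_cons_of_length_eq_add_one hl
    have h := ih (fun a => sel (t a) s) l (Nat.succ.inj hl)
    cases s <;> exact h

/-- Splitting off the first letter before the site operation. -/
def zB1 (m1 : ℕ) (d : ℕ) (a b : Tb (d + 2)) : Tb (d + 2) :=
  zB m1 d (C.a a) (C.b a) (C.a b) (C.b b)

/-- Entrywise map. -/
def mp (f : ℕ → ℕ) (d : ℕ) : Tb d → Tb d :=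
  Nat.rec (motive := fun d => Tb d → Tb d) f
    (fun _ ih t => C.mk (ih (C.a t)) (ih (C.b t))) d

theorem get_mp (f : ℕ → ℕ) (d : ℕ) (t : Tb d) (l : List Bool) (hl : l.length = d) :
    get d (mp f d t) l = f (get d t l) := by
  induction d generalizing l with
  | zero => rfl
  | succ d ih =>
    obtain ⟨s, l, rfl⟩ := List.exists_cons_of_length_eq_add_one hl
    have h := ih (sel t s) l (Nat.succ.inj hl)
    cases s <;> exact h

/-- The implementation. -/
def impl : Impl eul where
  Tb := Tb
  get := get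
  q := 2
  dig := dig
  D := [true, false]
  hD := by decide
  leaf n := n
  get_leaf _ := rfl
  val t := t
  val_eq _ := rfl
  ch _ t s := sel t s
  get_ch _ _ _ _ := rfl
  sumS f := (Nat.add (f true) (f false))
  sumS_eq f := (sumq f).symm
  mp := mp
  get_mp := get_mp
  zipA d sh sy t := zA (Nat.mul sh 1) (Nat.mul sy 1) d (t true) (t false)
  zipA_eq d sh sy t l y' x' hl := zA_eq sh sy d t l y' x' hl
  zipB d sh t := zB1 (Nat.mul sh 1) d (t true) (t false)
  zipB_eq d sh t l y' x' hl := zB_eq sh d (fun a y => sel (t a) y) l y' x' hl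
  split_sum := by
    intro M g hg
    simp only [sumq, split_eq]
    have e0 : dig true = 0 := rfl
    have e1 : dig false = 1 := rfl
    simp only [e0, e1, pow_mul]
    have h0 := hg true
    have h1 := hg false
    generalize 2 ^ M = A at *
    have hA : 0 < A := by omega
    refine ⟨fun s => ?_, by nlinarith⟩
    cases s
    · simp only [e1, pow_zero, pow_one, one_mul]
      rw [Nat.add_mul_div_left _ _ hA, Nat.div_eq_of_lt h0, zero_add, Nat.mod_eq_of_lt h1]
    · simp only [e0, pow_zero, pow_one, one_mul, Nat.div_one]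
      rw [Nat.add_mul_mod_self_left, Nat.mod_eq_of_lt h0]

/-- Start of a free row. -/
def startF (d : ℕ) : Tb d → Tb (0 + d + 1) :=
  Nat.rec (motive := fun d => Tb d → Tb (0 + d + 1))
    (fun t => C.mk t t)
    (fun _ ih t => C.mk (ih (C.a t)) (ih (C.b t))) d

/-- End of a free row. -/
def finishF (d : ℕ) : Tb (0 + d + 1) → Tb d :=
  Nat.rec (motive := fun d => Tb (0 + d + 1) → Tb d)
    (fun t => (Nat.add (C.a t) (C.b t)))
    (fun _ ih t => C.mk (ih (C.a t)) (ih (C.b t))) d

/-- Start of a periodic row. -/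
def startP (d : ℕ) : Tb d → Tb (1 + d + 1) :=
  Nat.rec (motive := fun d => Tb d → Tb (1 + d + 1))
    (fun t => C.mk (C.mk t (0 : ℕ)) (C.mk (0 : ℕ) t))
    (fun _ ih t => C.mk (ih (C.a t)) (ih (C.b t))) d

/-- End of a periodic row. -/
def finP (d : ℕ) : Tb (1 + d) → Tb (1 + d) → Tb (d) :=
  Nat.rec (motive := fun d => Tb (1 + d) → Tb (1 + d) → Tb (d))
    (fun a b => (Nat.add (C.a a) (C.b b)))
    (fun _ ih a b => C.mk (ih (C.a a) (C.a b)) (ih (C.b a) (C.b b))) d

/-- End of a periodic row, after splitting off the first letter. -/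
def finishP (d : ℕ) (t : Tb (1 + d + 1)) : Tb d := finP d (C.a t) (C.b t)

theorem startF_eq (d : ℕ) (t : Tb d) (l : List Bool) (x : Bool) (hl : l.length = d) :
    get (0 + d + 1) (startF d t) (l ++ [x]) = get d t l := by
  induction d generalizing l with
  | zero =>
    obtain rfl := List.length_eq_zero_iff.1 hl
    cases x <;> rfl
  | succ d ih =>
    obtain ⟨s, l, rfl⟩ := List.exists_cons_of_length_eq_add_one hl
    have h := ih (sel t s) l (Nat.succ.inj hl)
    cases s <;> exact h

theorem finishF_eq (d : ℕ) (t : Tb (0 + d + 1)) (l : List Bool) (hl : l.length = d) :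
    get d (finishF d t) l = ∑ x, get (0 + d + 1) t (l ++ [x]) := by
  induction d generalizing l with
  | zero =>
    obtain rfl := List.length_eq_zero_iff.1 hl
    rw [sumq]; rfl
  | succ d ih =>
    obtain ⟨s, l, rfl⟩ := List.exists_cons_of_length_eq_add_one hl
    have h := ih (sel t s) l (Nat.succ.inj hl)
    cases s <;> exact h

theorem startP_eq (d : ℕ) (t : Tb d) (l : List Bool) (ξ x : Bool) (hl : l.length = d) :
    get (1 + d + 1) (startP d t) (l ++ [ξ] ++ [x]) = cy ξ x * get d t l := by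
  induction d generalizing l with
  | zero =>
    obtain rfl := List.length_eq_zero_iff.1 hl
    cases x <;> cases ξ <;> simp +decide only [cy, ite_true, ite_false, one_mul, zero_mul] <;> rfl
  | succ d ih =>
    obtain ⟨s, l, rfl⟩ := List.exists_cons_of_length_eq_add_one hl
    have h := ih (sel t s) l (Nat.succ.inj hl)
    cases s <;> exact h

theorem finP_eq (d : ℕ) (t : Bool → Tb (1 + d)) (l : List Bool) (hl : l.length = d) :
    get d (finP d (t true) (t false)) l = ∑ x, get (1 + d) (t x) (l ++ [x]) := by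
  induction d generalizing l with
  | zero =>
    obtain rfl := List.length_eq_zero_iff.1 hl
    rw [sumq]; rfl
  | succ d ih =>
    obtain ⟨s, l, rfl⟩ := List.exists_cons_of_length_eq_add_one hl
    have h := ih (fun x => sel (t x) s) l (Nat.succ.inj hl)
    cases s <;> exact h

/-- Free rows. -/
def modeF : Mode impl fr where
  e := 0
  Ξ := Unit
  fin := inferInstance
  pth _ := []
  len _ := rfl
  δ _ _ := 1
  γ _ _ := 1
  hb _ _ := by simp [fr]
  start := startF
  start_eq d t l _ x hl := by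
    rw [List.append_nil, one_mul]; exact startF_eq d t l x hl
  finish := finishF
  finish_eq d t l hl := by
    simp only [Finset.univ_unique, Finset.sum_singleton, List.nil_append, one_mul]
    exact finishF_eq d t l hl

/-- Periodic rows. -/
def modeP : Mode impl cy where
  e := 1
  Ξ := Bool
  fin := inferInstance
  pth ξ := [ξ]
  len _ := rfl
  δ := cy
  γ := cy
  hb := by decide
  start := startP
  start_eq := startP_eq
  finish := finishP
  finish_eq d t l hl := by
    refine (finP_eq d (fun x => sel t x) l hl).trans (Finset.sum_congr rfl fun ξ _ => ?_)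
    simp only [cy, ite_mul, one_mul, zero_mul, Finset.sum_ite_eq, Finset.mem_univ, if_true]
    rfl

end Pool.Agent.MP_7c8df0_mp.E2
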