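import Pool.Agent.MP_7c8df0_mp.Check
import Pool.Agent.MP_7c8df0_mp.Models

/-! Tables with 3 branches. -/

set_option linter.unusedVariables false
set_option linter.unusedSimpArgs false

noncomputable section
namespace Pool.Agent.MP_7c8df0_mp.E3
open Finset

/-- One entry for each edge state. -/
structure C (α : Type) where
  (a b c : α)

/-- Tables of depth `d`. -/
def Tb (d : ℕ) : Type := Nat.rec ℕ (fun _ α => C α) d

/-- Entry at a state. -/
def sel {α : Type} (t : C α) (s : SignType) : α := SignType.rec t.c t.b t.a s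

/-- Digit of a state. -/
def dig (s : SignType) : ℕ := SignType.rec 2 1 0 s

/-- Entry at a word. -/
def get (d : ℕ) : Tb d → List SignType → ℕ :=
  Nat.rec (motive := fun d => Tb d → List SignType → ℕ) (fun n _ => n)
    (fun _ ih t l => List.casesOn l 0 fun s l => ih (sel t s) l) d

theorem sumq (f : SignType → ℕ) : ∑ s, f s = f SignType.pos + f SignType.neg + f SignType.zero := by
  show ∑ s ∈ ({SignType.zero, SignType.neg, SignType.pos} : Finset SignType), f s = _
  rw [Finset.sum_insert (by decide), Finset.sum_insert (by decide), Finset.sum_singleton]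
  ring

/-- Site operation, last stage. -/
def k3 (o00 o01 o02 o11 o12 o22 : ℕ) : C (C ℕ) :=
  C.mk (C.mk o00 o01 o02) (C.mk o01 o11 o12) (C.mk o02 o12 o22)

/-- Site operation, middle stage. -/
def k2 (m1 m2 : ℕ) (s001 s002 s011 s012 s022 s112 s122 : ℕ) : C (C ℕ) :=
  k3 (Nat.add (Nat.shiftLeft s022 m1) (Nat.shiftLeft s002 m2)) (Nat.add (Nat.add s022 (Nat.shiftLeft s122 m1)) (Nat.shiftLeft s012 m2)) (Nat.add (Nat.add s002 (Nat.shiftLeft s012 m1)) (Nat.shiftLeft s001 m2)) (Nat.add s122 (Nat.shiftLeft s112 m2)) (Nat.add (Nat.add s012 (Nat.shiftLeft s112 m1)) (Nat.shiftLeft s011 m2)) (Nat.add s001 (Nat.shiftLeft s011 m1))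

/-- Site operation in a later row. -/
def kB (m1 m2 : ℕ) (t00 t01 t02 t10 t11 t12 t20 t21 t22 : C ℕ) : C (C ℕ) :=
  k2 m1 m2 (Nat.add (Nat.add t00.b t01.a) t10.a) (Nat.add (Nat.add t00.c t02.a) t20.a) (Nat.add (Nat.add t01.b t10.b) t11.a) (Nat.add (Nat.add (Nat.add (Nat.add (Nat.add t01.c t02.b) t10.c) t12.a) t20.b) t21.a) (Nat.add (Nat.add t02.c t20.c) t22.a) (Nat.add (Nat.add t11.c t12.b) t21.b) (Nat.add (Nat.add t12.c t21.c) t22.b)

/-- Site operation in the first row, second stage. -/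
def kA2 (m1 m2 n1 n2 : ℕ) (p00 p01 p02 p11 p12 p22 : ℕ) : C (C ℕ) :=
  k2 m1 m2 (Nat.add p01 (Nat.shiftLeft p00 n1)) (Nat.add p02 (Nat.shiftLeft p00 n2)) (Nat.add p11 (Nat.shiftLeft p01 n1)) (Nat.add (Nat.add p12 (Nat.shiftLeft p02 n1)) (Nat.shiftLeft p01 n2)) (Nat.add p22 (Nat.shiftLeft p02 n2)) (Nat.add (Nat.shiftLeft p12 n1) (Nat.shiftLeft p11 n2)) (Nat.add (Nat.shiftLeft p22 n1) (Nat.shiftLeft p12 n2))

/-- Site operation in the first row. -/
def kA (m1 m2 n1 n2 : ℕ) (a b c : C ℕ) : C (C ℕ) :=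
  kA2 m1 m2 n1 n2 a.a (Nat.add a.b b.a) (Nat.add a.c c.a) b.b (Nat.add b.c c.b) c.c

theorem kB_eq (sh : ℕ) (t : SignType → SignType → C ℕ) (y' x' : SignType) :
    sel (sel (kB (Nat.mul sh 1) (Nat.mul sh 2) (t SignType.pos SignType.pos) (t SignType.pos SignType.neg) (t SignType.pos SignType.zero) (t SignType.neg SignType.pos) (t SignType.neg SignType.neg) (t SignType.neg SignType.zero) (t SignType.zero SignType.pos) (t SignType.zero SignType.neg) (t SignType.zero SignType.zero)) y') x'
    = ∑ a, 2 ^ (sh * dig a) * ∑ a', ∑ y, ∑ x, ice.w a' a y y' x x' * sel (t a' y) x := by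
  cases y' <;> cases x' <;>
    simp +decide only [sumq, ice, ite_true, ite_false, kB, k2, k3, sel, dig, Nat.add_eq, Nat.mul_eq,
      Nat.shiftLeft_eq', Nat.shiftLeft_eq] <;> ring

theorem kA_eq (sh sy : ℕ) (t : SignType → C ℕ) (y' x' : SignType) :
    sel (sel (kA (Nat.mul sh 1) (Nat.mul sh 2) (Nat.mul sy 1) (Nat.mul sy 2) (t SignType.pos) (t SignType.neg) (t SignType.zero)) y') x'
    = ∑ a, 2 ^ (sh * dig a) * ∑ a', ∑ y, ∑ x, ice.w a' a y y' x x' *
      (2 ^ (sy * dig y) * sel (t a') x) := by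
  cases y' <;> cases x' <;>
    simp +decide only [sumq, ice, ite_true, ite_false, kA, kA2, k2, k3, sel, dig, Nat.add_eq,
      Nat.mul_eq, Nat.shiftLeft_eq', Nat.shiftLeft_eq] <;> ring

/-- Site operation on tables, later row. -/
def zB (m1 m2 : ℕ) (d : ℕ) : Tb (d + 1) → Tb (d + 1) → Tb (d + 1) → Tb (d + 1) → Tb (d + 1) → Tb (d + 1) → Tb (d + 1) → Tb (d + 1) → Tb (d + 1) → Tb (d + 2) :=
  Nat.rec (motive := fun d => Tb (d + 1) → Tb (d + 1) → Tb (d + 1) → Tb (d + 1) → Tb (d + 1) → Tb (d + 1) → Tb (d + 1) → Tb (d + 1) → Tb (d + 1) → Tb (d + 2))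
    (kB m1 m2)
    (fun _ ih t00 t01 t02 t10 t11 t12 t20 t21 t22 => C.mk (ih (C.a t00) (C.a t01) (C.a t02) (C.a t10) (C.a t11) (C.a t12) (C.a t20) (C.a t21) (C.a t22)) (ih (C.b t00) (C.b t01) (C.b t02) (C.b t10) (C.b t11) (C.b t12) (C.b t20) (C.b t21) (C.b t22)) (ih (C.c t00) (C.c t01) (C.c t02) (C.c t10) (C.c t11) (C.c t12) (C.c t20) (C.c t21) (C.c t22))) d

/-- Site operation on tables, first row. -/
def zA (m1 m2 n1 n2 : ℕ) (d : ℕ) : Tb (d + 1) → Tb (d + 1) → Tb (d + 1) → Tb (d + 2) :=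
  Nat.rec (motive := fun d => Tb (d + 1) → Tb (d + 1) → Tb (d + 1) → Tb (d + 2))
    (kA m1 m2 n1 n2)
    (fun _ ih a b c => C.mk (ih (C.a a) (C.a b) (C.a c)) (ih (C.b a) (C.b b) (C.b c)) (ih (C.c a) (C.c b) (C.c c))) d

theorem zB_eq (sh d : ℕ) (t : SignType → SignType → Tb (d + 1)) (l : List SignType) (y' x' : SignType)
    (hl : l.length = d) :
    get (d + 2) (zB (Nat.mul sh 1) (Nat.mul sh 2) d (t SignType.pos SignType.pos) (t SignType.pos SignType.neg) (t SignType.pos SignType.zero) (t SignType.neg SignType.pos) (t SignType.neg SignType.neg) (t SignType.neg SignType.zero) (t SignType.zero SignType.pos) (t SignType.zero SignType.neg) (t SignType.zero SignType.zero)) (l ++ [y', x'])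
    = ∑ a, 2 ^ (sh * dig a) * ∑ a', ∑ y, ∑ x, ice.w a' a y y' x x' *
      get (d + 1) (t a' y) (l ++ [x]) := by
  induction d generalizing l with
  | zero =>
    obtain rfl := List.length_eq_zero_iff.1 hl
    exact kB_eq sh t y' x'
  | succ d ih =>
    obtain ⟨s, l, rfl⟩ := List.exists_cons_of_length_eq_add_one hl
    have h := ih (fun a y => sel (t a y) s) l (Nat.succ.inj hl)
    cases s <;> exact h

theorem zA_eq (sh sy d : ℕ) (t : SignType → Tb (d + 1)) (l : List SignType) (y' x' : SignType)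
    (hl : l.length = d) :
    get (d + 2) (zA (Nat.mul sh 1) (Nat.mul sh 2) (Nat.mul sy 1) (Nat.mul sy 2) d (t SignType.pos) (t SignType.neg) (t SignType.zero)) (l ++ [y', x'])
    = ∑ a, 2 ^ (sh * dig a) * ∑ a', ∑ y, ∑ x, ice.w a' a y y' x x' *
      (2 ^ (sy * dig y) * get (d + 1) (t a') (l ++ [x])) := by
  induction d generalizing l with
  | zero =>
    obtain rfl := List.length_eq_zero_iff.1 hl
    exact kA_eq sh sy t y' x'
  | succ d ih =>
    obtain ⟨s, l, rfl⟩ := List.exists_cons_of_length_eq_add_one hl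
    have h := ih (fun a => sel (t a) s) l (Nat.succ.inj hl)
    cases s <;> exact h

/-- Splitting off the first letter before the site operation. -/
def zB1 (m1 m2 : ℕ) (d : ℕ) (a b c : Tb (d + 2)) : Tb (d + 2) :=
  zB m1 m2 d (C.a a) (C.b a) (C.c a) (C.a b) (C.b b) (C.c b) (C.a c) (C.b c) (C.c c)

/-- Entrywise map. -/
def mp (f : ℕ → ℕ) (d : ℕ) : Tb d → Tb d :=
  Nat.rec (motive := fun d => Tb d → Tb d) f
    (fun _ ih t => C.mk (ih (C.a t)) (ih (C.b t)) (ih (C.c t))) d

theorem get_mp (f : ℕ → ℕ) (d : ℕ) (t : Tb d) (l : List SignType) (hl : l.length = d) :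
    get d (mp f d t) l = f (get d t l) := by
  induction d generalizing l with
  | zero => rfl
  | succ d ih =>
    obtain ⟨s, l, rfl⟩ := List.exists_cons_of_length_eq_add_one hl
    have h := ih (sel t s) l (Nat.succ.inj hl)
    cases s <;> exact h

/-- The implementation. -/
def impl : Impl ice where
  Tb := Tb
  get := get
  q := 3
  dig := dig
  D := [SignType.pos, SignType.neg, SignType.zero]
  hD := by decide
  leaf n := n
  get_leaf _ := rfl
  val t := t
  val_eq _ := rfl
  ch _ t s := sel t s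
  get_ch _ _ _ _ := rfl
  sumS f := (Nat.add (Nat.add (f SignType.pos) (f SignType.neg)) (f SignType.zero))
  sumS_eq f := (sumq f).symm
  mp := mp
  get_mp := get_mp
  zipA d sh sy t := zA (Nat.mul sh 1) (Nat.mul sh 2) (Nat.mul sy 1) (Nat.mul sy 2) d (t SignType.pos) (t SignType.neg) (t SignType.zero)
  zipA_eq d sh sy t l y' x' hl := zA_eq sh sy d t l y' x' hl
  zipB d sh t := zB1 (Nat.mul sh 1) (Nat.mul sh 2) d (t SignType.pos) (t SignType.neg) (t SignType.zero)
  zipB_eq d sh t l y' x' hl := zB_eq sh d (fun a y => sel (t a) y) l y' x' hl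
  split_sum := by
    intro M g hg
    simp only [sumq, split_eq]
    have e0 : dig SignType.pos = 0 := rfl
    have e1 : dig SignType.neg = 1 := rfl
    have e2 : dig SignType.zero = 2 := rfl
    simp only [e0, e1, e2, pow_mul]
    have h0 := hg SignType.pos
    have h1 := hg SignType.neg
    have h2 := hg SignType.zero
    generalize 2 ^ M = A at *
    have hA : 0 < A := by omega
    have e : A ^ 0 * g SignType.pos + A ^ 1 * g SignType.neg + A ^ 2 * g SignType.zero
      = g SignType.pos + A * (g SignType.neg + A * g SignType.zero) := by ring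
    rw [e]
    have h3 : g SignType.neg + A * g SignType.zero < A * A := by nlinarith
    refine ⟨fun s => ?_, by nlinarith⟩
    cases s
    · simp only [e2, sq]
      rw [← Nat.div_div_eq_div_mul, Nat.add_mul_div_left _ _ hA, Nat.div_eq_of_lt h0, zero_add,
        Nat.add_mul_div_left _ _ hA, Nat.div_eq_of_lt h1, zero_add, Nat.mod_eq_of_lt h2]
    · simp only [e1, pow_one]
      rw [Nat.add_mul_div_left _ _ hA, Nat.div_eq_of_lt h0, zero_add, Nat.add_mul_mod_self_left,
        Nat.mod_eq_of_lt h1]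
    · simp only [e0, pow_zero, Nat.div_one]
      rw [Nat.add_mul_mod_self_left, Nat.mod_eq_of_lt h0]

/-- Start of a free row. -/
def startF (d : ℕ) : Tb d → Tb (0 + d + 1) :=
  Nat.rec (motive := fun d => Tb d → Tb (0 + d + 1))
    (fun t => C.mk t t t)
    (fun _ ih t => C.mk (ih (C.a t)) (ih (C.b t)) (ih (C.c t))) d

/-- End of a free row. -/
def finishF (d : ℕ) : Tb (0 + d + 1) → Tb d :=
  Nat.rec (motive := fun d => Tb (0 + d + 1) → Tb d)
    (fun t => (Nat.add (Nat.add (C.a t) (C.b t)) (C.c t)))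
    (fun _ ih t => C.mk (ih (C.a t)) (ih (C.b t)) (ih (C.c t))) d

/-- Start of a periodic row. -/
def startP (d : ℕ) : Tb d → Tb (1 + d + 1) :=
  Nat.rec (motive := fun d => Tb d → Tb (1 + d + 1))
    (fun t => C.mk (C.mk t (0 : ℕ) (0 : ℕ)) (C.mk (0 : ℕ) t (0 : ℕ)) (C.mk (0 : ℕ) (0 : ℕ) t))
    (fun _ ih t => C.mk (ih (C.a t)) (ih (C.b t)) (ih (C.c t))) d

/-- End of a periodic row. -/
def finP (d : ℕ) : Tb (1 + d) → Tb (1 + d) → Tb (1 + d) → Tb (d) :=
  Nat.rec (motive := fun d => Tb (1 + d) → Tb (1 + d) → Tb (1 + d) → Tb (d))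
    (fun a b c => (Nat.add (Nat.add (C.a a) (C.b b)) (C.c c)))
    (fun _ ih a b c => C.mk (ih (C.a a) (C.a b) (C.a c)) (ih (C.b a) (C.b b) (C.b c)) (ih (C.c a) (C.c b) (C.c c))) d

/-- End of a periodic row, after splitting off the first letter. -/
def finishP (d : ℕ) (t : Tb (1 + d + 1)) : Tb d := finP d (C.a t) (C.b t) (C.c t)

theorem startF_eq (d : ℕ) (t : Tb d) (l : List SignType) (x : SignType) (hl : l.length = d) :
    get (0 + d + 1) (startF d t) (l ++ [x]) = get d t l := by
  induction d generalizing l with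
  | zero =>
    obtain rfl := List.length_eq_zero_iff.1 hl
    cases x <;> rfl
  | succ d ih =>
    obtain ⟨s, l, rfl⟩ := List.exists_cons_of_length_eq_add_one hl
    have h := ih (sel t s) l (Nat.succ.inj hl)
    cases s <;> exact h

theorem finishF_eq (d : ℕ) (t : Tb (0 + d + 1)) (l : List SignType) (hl : l.length = d) :
    get d (finishF d t) l = ∑ x, get (0 + d + 1) t (l ++ [x]) := by
  induction d generalizing l with
  | zero =>
    obtain rfl := List.length_eq_zero_iff.1 hl
    rw [sumq]; rfl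
  | succ d ih =>
    obtain ⟨s, l, rfl⟩ := List.exists_cons_of_length_eq_add_one hl
    have h := ih (sel t s) l (Nat.succ.inj hl)
    cases s <;> exact h

theorem startP_eq (d : ℕ) (t : Tb d) (l : List SignType) (ξ x : SignType) (hl : l.length = d) :
    get (1 + d + 1) (startP d t) (l ++ [ξ] ++ [x]) = cy ξ x * get d t l := by
  induction d generalizing l with
  | zero =>
    obtain rfl := List.length_eq_zero_iff.1 hl
    cases x <;> cases ξ <;> simp +decide only [cy, ite_true, ite_false, one_mul, zero_mul] <;> rfl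
  | succ d ih =>
    obtain ⟨s, l, rfl⟩ := List.exists_cons_of_length_eq_add_one hl
    have h := ih (sel t s) l (Nat.succ.inj hl)
    cases s <;> exact h

theorem finP_eq (d : ℕ) (t : SignType → Tb (1 + d)) (l : List SignType) (hl : l.length = d) :
    get d (finP d (t SignType.pos) (t SignType.neg) (t SignType.zero)) l = ∑ x, get (1 + d) (t x) (l ++ [x]) := by
  induction d generalizing l with
  | zero =>
    obtain rfl := List.length_eq_zero_iff.1 hl
    rw [sumq]; rfl
  | succ d ih =>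
    obtain ⟨s, l, rfl⟩ := List.exists_cons_of_length_eq_add_one hl
    have h := ih (fun x => sel (t x) s) l (Nat.succ.inj hl)
    cases s <;> exact h

/-- Free rows. -/
def modeF : Mode impl fr where
  e := 0
  Ξ := Unit
  fin := inferInstance
  pth _ := []
  len _ := rfl
  δ _ _ := 1
  γ _ _ := 1
  hb _ _ := by simp [fr]
  start := startF
  start_eq d t l _ x hl := by
    rw [List.append_nil, one_mul]; exact startF_eq d t l x hl
  finish := finishF
  finish_eq d t l hl := by
    simp only [Finset.univ_unique, Finset.sum_singleton, List.nil_append, one_mul]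
    exact finishF_eq d t l hl

/-- Periodic rows. -/
def modeP : Mode impl cy where
  e := 1
  Ξ := SignType
  fin := inferInstance
  pth ξ := [ξ]
  len _ := rfl
  δ := cy
  γ := cy
  hb := by decide
  start := startP
  start_eq := startP_eq
  finish := finishP
  finish_eq d t l hl := by
    refine (finP_eq d (fun x => sel t x) l hl).trans (Finset.sum_congr rfl fun ξ _ => ?_)
    simp only [cy, ite_mul, one_mul, zero_mul, Finset.sum_ite_eq, Finset.mem_univ, if_true]
    rfl

end Pool.Agent.MP_7c8df0_mp.E3
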