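import Pool.Agent.MP_7c8df0_mp.Slab

/-! A verified contraction of a layer against a packed test vector. -/

set_option linter.unusedSectionVars false
set_option linter.style.haveILetI false

namespace Pool.Agent.MP_7c8df0_mp
open Matrix Finset

/-- The `j`-th block of `M` bits of `X`. -/
def split (X M j : ℕ) : ℕ := Nat.land (Nat.shiftRight X (Nat.mul M j)) (Nat.pred (Nat.shiftLeft 1 M))

theorem split_eq (X M j : ℕ) : split X M j = X / (2 ^ M) ^ j % 2 ^ M := by
  show (X >>> (M * j)) &&& (1 <<< M - 1) = _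
  rw [Nat.shiftLeft_eq, one_mul, Nat.and_two_pow_sub_one_eq_mod, Nat.shiftRight_eq_div_pow,
    pow_mul]

theorem split_lt (X M j : ℕ) : split X M j < 2 ^ M := by
  rw [split_eq]; exact Nat.mod_lt _ (by positivity)

variable {S : Type} [Fintype S] [DecidableEq S] [Nonempty S]

/-- Tables indexed by words, with the site operations. -/
structure Impl (m : Model S) where
  Tb : ℕ → Type
  get : (d : ℕ) → Tb d → List S → ℕ
  q : ℕ
  dig : S → ℕ
  D : List S
  hD : ∀ s, s ∈ D
  leaf : ℕ → Tb 0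
  get_leaf : ∀ n, get 0 (leaf n) [] = n
  val : Tb 0 → ℕ
  val_eq : ∀ t, val t = get 0 t []
  ch : (d : ℕ) → Tb (d + 1) → S → Tb d
  get_ch : ∀ d t s l, get d (ch d t s) l = get (d + 1) t (s :: l)
  sumS : (S → ℕ) → ℕ
  sumS_eq : ∀ f, sumS f = ∑ s, f s
  mp : (ℕ → ℕ) → (d : ℕ) → Tb d → Tb d
  get_mp : ∀ f d t l, l.length = d → get d (mp f d t) l = f (get d t l)
  zipA : (d : ℕ) → ℕ → ℕ → (S → Tb (d + 1)) → Tb (d + 2)
  zipA_eq : ∀ d sh sy t l y' x', l.length = d → get (d + 2) (zipA d sh sy t) (l ++ [y', x'])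
    = ∑ a, 2 ^ (sh * dig a) * ∑ a', ∑ y, ∑ x, m.w a' a y y' x x' *
      (2 ^ (sy * dig y) * get (d + 1) (t a') (l ++ [x]))
  zipB : (d : ℕ) → ℕ → (S → Tb (d + 2)) → Tb (d + 2)
  zipB_eq : ∀ d sh t l y' x', l.length = d → get (d + 2) (zipB d sh t) (l ++ [y', x'])
    = ∑ a, 2 ^ (sh * dig a) * ∑ a', ∑ y, ∑ x, m.w a' a y y' x x' *
      get (d + 2) (t a') (y :: (l ++ [x]))
  split_sum : ∀ (M : ℕ) (g : S → ℕ), (∀ s, g s < 2 ^ M) →
    (∀ s, split (∑ s, 2 ^ (M * dig s) * g s) M (dig s) = g s) ∧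
      ∑ s, 2 ^ (M * dig s) * g s < 2 ^ (M * q)

/-- Treatment of the two ends of a row. -/
structure Mode {m : Model S} (I : Impl m) (b3 : S → S → ℕ) where
  e : ℕ
  Ξ : Type
  fin : Fintype Ξ
  pth : Ξ → List S
  len : ∀ ξ, (pth ξ).length = e
  δ : Ξ → S → ℕ
  γ : Ξ → S → ℕ
  hb : ∀ x x', b3 x x' = ∑ ξ, δ ξ x * γ ξ x'
  start : (d : ℕ) → I.Tb d → I.Tb (e + d + 1)
  start_eq : ∀ d t l ξ x, l.length = d →
    I.get (e + d + 1) (start d t) (l ++ pth ξ ++ [x]) = δ ξ x * I.get d t l
  finish : (d : ℕ) → I.Tb (e + d + 1) → I.Tb d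
  finish_eq : ∀ d t l, l.length = d →
    I.get d (finish d t) l = ∑ ξ, ∑ x, γ ξ x * I.get (e + d + 1) t (pth ξ ++ l ++ [x])

/-- Successive splitting along a row, last site first. -/
def subG {σ : Type} (spl : σ → ℕ → S → σ) (p0 : ℕ) : (i : ℕ) → σ → (Fin i → S) → σ
  | 0, st, _ => st
  | i + 1, st, a => subG spl p0 i (spl st (p0 + i) (a (Fin.last i))) (Fin.init a)

/-- Successive splitting along all rows, last row first. -/
def vG {σ : Type} (spl : σ → ℕ → S → σ) (k : ℕ) : (r : ℕ) → σ → (Fin r → Fin k → S) → σ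
  | 0, st, _ => st
  | r + 1, st, a => vG spl k r (subG spl (k * r) k st (a (Fin.last r))) (Fin.init a)

theorem subG_nat {σ τ : Type} (spl : σ → ℕ → S → σ) (spl' : τ → ℕ → S → τ) (π : σ → τ)
    (h : ∀ st p s, π (spl st p s) = spl' (π st) p s) (p0 i : ℕ) (st : σ) (a : Fin i → S) :
    π (subG spl p0 i st a) = subG spl' p0 i (π st) a := by
  induction i generalizing st with
  | zero => rfl
  | succ i ih => simp only [subG, ih, h]

theorem vG_nat {σ τ : Type} (spl : σ → ℕ → S → σ) (spl' : τ → ℕ → S → τ) (π : σ → τ)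
    (h : ∀ st p s, π (spl st p s) = spl' (π st) p s) (k r : ℕ) (st : σ)
    (a : Fin r → Fin k → S) : π (vG spl k r st a) = vG spl' k r (π st) a := by
  induction r generalizing st with
  | zero => rfl
  | succ r ih => simp only [vG, ih, subG_nat spl spl' π h]

/-- Check a predicate after every splitting along a row. -/
noncomputable def chkRow {σ : Type} (D : List S) (spl : σ → ℕ → S → σ) (p0 : ℕ)
    (f : σ → List S → Bool) (i : ℕ) : σ → List S → Bool :=
  Nat.rec (motive := fun _ => σ → List S → Bool) f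
    (fun i ih st L => D.all fun s => ih (spl st (Nat.add p0 i) s) (s :: L)) i

/-- Check a predicate after every splitting along all rows. -/
noncomputable def chkAll {σ : Type} (D : List S) (spl : σ → ℕ → S → σ) (k : ℕ)
    (f : σ → List (List S) → Bool) (r : ℕ) : σ → List (List S) → Bool :=
  Nat.rec (motive := fun _ => σ → List (List S) → Bool) f
    (fun r ih st LL => chkRow D spl (Nat.mul k r) (fun st' L => ih st' (L :: LL)) k st []) r

theorem ofFn_snoc' {α : Type} {i : ℕ} (a : Fin (i + 1) → α) :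
    List.ofFn a = List.ofFn (Fin.init a) ++ [a (Fin.last i)] := by
  rw [List.ofFn_succ', List.concat_eq_append]; rfl

theorem chkRow_spec {σ : Type} {D : List S} (hD : ∀ s, s ∈ D) (spl : σ → ℕ → S → σ) (p0 : ℕ)
    (f : σ → List S → Bool) (i : ℕ) (st : σ) (L : List S) (h : chkRow D spl p0 f i st L = true)
    (a : Fin i → S) : f (subG spl p0 i st a) (List.ofFn a ++ L) = true := by
  induction i generalizing st L with
  | zero => exact h
  | succ i ih =>
    have := ih _ _ (List.all_eq_true.1 h _ (hD (a (Fin.last i)))) (Fin.init a)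
    rw [ofFn_snoc', List.append_assoc]
    exact this

theorem chkAll_spec {σ : Type} {D : List S} (hD : ∀ s, s ∈ D) (spl : σ → ℕ → S → σ) (k : ℕ)
    (f : σ → List (List S) → Bool) (r : ℕ) (st : σ) (LL : List (List S))
    (h : chkAll D spl k f r st LL = true) (a : Fin r → Fin k → S) :
    f (vG spl k r st a) (List.ofFn (fun j => List.ofFn (a j)) ++ LL) = true := by
  induction r generalizing st LL with
  | zero => exact h
  | succ r ih =>
    have := ih _ _ (chkRow_spec hD spl _ _ k st [] h (a (Fin.last r))) (Fin.init a)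
    rw [ofFn_snoc', List.append_assoc]
    rw [List.append_nil] at this
    exact this

variable {m : Model S} (I : Impl m)

/-- Block size at a position. -/
def pw (B off p : ℕ) : ℕ := Nat.mul B (Nat.pow I.q (Nat.add off p))

/-- Splitting of a packed vector at a position. -/
def sp (B off X p : ℕ) (s : S) : ℕ := split X (pw I B off p) (I.dig s)

/-- Packing factor of a row. -/
def mr (B off p0 : ℕ) {i : ℕ} (a : Fin i → S) : ℕ := ∏ j : Fin i, 2 ^ (pw I B off (p0 + j) * I.dig (a j))

theorem mr_snoc (B off p0 : ℕ) {i : ℕ} (a : Fin i → S) (s : S) :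
    mr I B off p0 (Fin.snoc (α := fun _ => S) a s)
      = mr I B off p0 a * 2 ^ (pw I B off (p0 + i) * I.dig s) := by
  simp [mr, Fin.prod_univ_castSucc]

theorem pw_succ (B off p : ℕ) : pw I B off (p + 1) = pw I B off p * I.q := by
  show B * I.q ^ (off + p + 1) = B * I.q ^ (off + p) * I.q
  ring

theorem dec_row (B off p0 i : ℕ) (g : (Fin i → S) → ℕ) (hg : ∀ a, g a < 2 ^ pw I B off p0) :
    (∀ a, subG (sp I B off) p0 i (∑ a, mr I B off p0 a * g a) a = g a) ∧
      ∑ a, mr I B off p0 a * g a < 2 ^ pw I B off (p0 + i) := by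
  induction i with
  | zero =>
    have e : ∀ a, ∑ a, mr I B off p0 a * g a = g a := by
      intro a; rw [Fintype.sum_eq_single a fun b hb => absurd (Subsingleton.elim _ _) hb]
      simp [mr]
    exact ⟨fun a => e a, by rw [e default]; exact hg _⟩
  | succ i ih =>
    have e : ∑ a, mr I B off p0 a * g a = ∑ s, 2 ^ (pw I B off (p0 + i) * I.dig s) *
        ∑ a, mr I B off p0 a * g (Fin.snoc (α := fun _ => S) a s) := by
      rw [sum_snoc, Finset.sum_comm]
      refine Finset.sum_congr rfl fun s _ => ?_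
      rw [Finset.mul_sum]
      exact Finset.sum_congr rfl fun a _ => by rw [mr_snoc]; ring
    have h := I.split_sum (pw I B off (p0 + i))
      (fun s => ∑ a, mr I B off p0 a * g (Fin.snoc (α := fun _ => S) a s))
      fun s => (ih _ fun a => hg _).2
    rw [e, ← add_assoc, pw_succ]
    refine ⟨fun a => ?_, h.2⟩
    rw [subG, sp, h.1, (ih _ fun a => hg _).1, Fin.snoc_init_self]

theorem dec_all (B off k r : ℕ) (g : (Fin r → Fin k → S) → ℕ) (hg : ∀ a, g a < 2 ^ pw I B off 0) :
    (∀ a, vG (sp I B off) k r (∑ a, (∏ j : Fin r, mr I B off (k * j) (a j)) * g a) a = g a) ∧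
      ∑ a, (∏ j : Fin r, mr I B off (k * j) (a j)) * g a < 2 ^ pw I B off (k * r) := by
  induction r with
  | zero =>
    have e : ∀ a, ∑ a, (∏ j : Fin 0, mr I B off (k * j) (a j)) * g a = g a := by
      intro a; rw [Fintype.sum_eq_single a fun b hb => absurd (Subsingleton.elim _ _) hb]
      simp
    exact ⟨fun a => e a, by rw [e default]; exact hg _⟩
  | succ r ih =>
    have e : ∑ a, (∏ j : Fin (r + 1), mr I B off (k * j) (a j)) * g a
        = ∑ s, mr I B off (k * r) s * ∑ a, (∏ j : Fin r, mr I B off (k * j) (a j)) *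
          g (Fin.snoc (α := fun _ => Fin k → S) a s) := by
      rw [sum_snoc, Finset.sum_comm]
      refine Finset.sum_congr rfl fun s _ => ?_
      rw [Finset.mul_sum]
      refine Finset.sum_congr rfl fun a _ => ?_
      simp only [Fin.prod_univ_castSucc, Fin.snoc_castSucc, Fin.snoc_last, Fin.val_castSucc,
        Fin.val_last]
      ring
    have h := dec_row I B off (k * r) k (fun s => ∑ a, (∏ j : Fin r, mr I B off (k * j) (a j)) *
          g (Fin.snoc (α := fun _ => Fin k → S) a s)) fun s => (ih _ fun a => hg _).2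
    rw [e]
    refine ⟨fun a => ?_, h.2⟩
    rw [vG, h.1, (ih _ fun a => hg _).1, Fin.snoc_init_self]

/-- Meaning of a table in the middle of a row. -/
def Sem (B off Bv p0 : ℕ) (f : S → ℕ) (i : ℕ) (X : ℕ) (g : ℕ → (Fin i → S) → ℕ)
    (y' : Fin i → S) (x : S) : ℕ :=
  ∑ a, mr I B off p0 a * ∑ a', ∑ y, g (subG (sp I Bv 0) p0 i X a') y *
    ∑ x0, f x0 * (List.ofFn fun j => Wm m (a' j) (a j) (y j) (y' j)).prod x0 x

theorem Sem_zero (B off Bv p0 : ℕ) (f : S → ℕ) (X : ℕ) (g : ℕ → (Fin 0 → S) → ℕ)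
    (y' : Fin 0 → S) (x : S) : Sem I B off Bv p0 f 0 X g y' x = f x * g X y' := by
  have : y' = default := Subsingleton.elim _ _
  simp [Sem, mr, subG, Matrix.one_apply, this, mul_comm]

theorem Sem_succ (B off Bv p0 : ℕ) (f : S → ℕ) (i X : ℕ) (g : ℕ → (Fin (i + 1) → S) → ℕ)
    (y' : Fin (i + 1) → S) (x' : S) : Sem I B off Bv p0 f (i + 1) X g y' x'
    = ∑ a, 2 ^ (pw I B off (p0 + i) * I.dig a) * ∑ a', ∑ y, ∑ x,
      m.w a' a y (y' (Fin.last i)) x x' * Sem I B off Bv p0 f i (sp I Bv 0 X (p0 + i) a')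
        (fun X' u => g X' (Fin.snoc (α := fun _ => S) u y)) (Fin.init y') x := by
  unfold Sem
  rw [sum_snoc, Finset.sum_comm]
  refine Finset.sum_congr rfl fun a _ => ?_
  simp only [mr_snoc]
  have e : ∀ A : Fin i → S, (∑ a' : Fin (i + 1) → S, ∑ y : Fin (i + 1) → S,
      g (subG (sp I Bv 0) p0 (i + 1) X a') y * ∑ x0, f x0 * (List.ofFn fun j =>
        Wm m (a' j) (Fin.snoc (α := fun _ => S) A a j) (y j) (y' j)).prod x0 x')
      = ∑ a', ∑ y, ∑ x, m.w a' a y (y' (Fin.last i)) x x' * ∑ A' : Fin i → S, ∑ Y : Fin i → S,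
        g (subG (sp I Bv 0) p0 i (sp I Bv 0 X (p0 + i) a') A') (Fin.snoc (α := fun _ => S) Y y) *
          ∑ x0, f x0 * (List.ofFn fun j => Wm m (A' j) (A j) (Y j) (Fin.init y' j)).prod x0 x := by
    intro A
    rw [sum_snoc, Finset.sum_comm]
    refine Finset.sum_congr rfl fun a' _ => ?_
    simp only [sum_snoc (n := i)]
    conv_lhs => enter [2, A']; rw [Finset.sum_comm]
    rw [Finset.sum_comm]
    refine Finset.sum_congr rfl fun y _ => ?_
    simp only [Finset.mul_sum]
    conv_rhs => rw [Finset.sum_comm]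
    refine Finset.sum_congr rfl fun A' _ => ?_
    conv_rhs => rw [Finset.sum_comm]
    refine Finset.sum_congr rfl fun Y _ => ?_
    conv_rhs => rw [Finset.sum_comm]
    refine Finset.sum_congr rfl fun x0 _ => ?_
    rw [prod_snoc, Matrix.mul_apply, Finset.mul_sum, Finset.mul_sum]
    refine Finset.sum_congr rfl fun x _ => ?_
    have : (Fin.init fun j => Wm m (Fin.snoc (α := fun _ => S) A' a' j)
        (Fin.snoc (α := fun _ => S) A a j) (Fin.snoc (α := fun _ => S) Y y j) (y' j))
        = fun j => Wm m (A' j) (A j) (Y j) (Fin.init y' j) := by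
      funext j; simp [Fin.init]
    rw [this]
    simp only [subG, Fin.snoc_last, Fin.init_snoc, Wm]
    ring
  refine (Finset.sum_congr rfl fun A _ => by rw [e A]).trans ?_
  simp only [Finset.mul_sum]
  rw [Finset.sum_comm]
  refine Finset.sum_congr rfl fun a' _ => ?_
  rw [Finset.sum_comm]
  refine Finset.sum_congr rfl fun y _ => ?_
  rw [Finset.sum_comm]
  refine Finset.sum_congr rfl fun x _ => ?_
  refine Finset.sum_congr rfl fun A _ => Finset.sum_congr rfl fun A' _ =>
    Finset.sum_congr rfl fun Y _ => Finset.sum_congr rfl fun x0 _ => by ring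

theorem Sem_mul (B off Bv p0 : ℕ) (f : S → ℕ) (i X c : ℕ) (g : ℕ → (Fin i → S) → ℕ)
    (y' : Fin i → S) (x : S) : Sem I B off Bv p0 f i X (fun X u => c * g X u) y' x
      = c * Sem I B off Bv p0 f i X g y' x := by
  simp only [Sem, Finset.mul_sum]
  refine Finset.sum_congr rfl fun A _ => Finset.sum_congr rfl fun A' _ =>
    Finset.sum_congr rfl fun Y _ => Finset.sum_congr rfl fun x0 _ => by ring

variable {b3 : S → S → ℕ} (M : Mode I b3)

/-- The first row. -/
noncomputable def row1 (B off By Bv : ℕ) (i : ℕ) : ℕ → I.Tb (M.e + i + 1) :=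
  Nat.rec (motive := fun i => ℕ → I.Tb (M.e + i + 1)) (fun X => M.start 0 (I.leaf X))
    (fun i ih X => I.zipA (M.e + i) (pw I B off i) (pw I By 0 i)
      fun s => ih (sp I Bv 0 X i s)) i

/-- A later row. -/
noncomputable def row2 (B off Bv k p0 : ℕ) (base : ℕ → I.Tb (k + 1)) (i : ℕ) :
    ℕ → I.Tb (M.e + (k + 1) + 1) :=
  Nat.rec (motive := fun _ => ℕ → I.Tb (M.e + (k + 1) + 1)) (fun X => M.start (k + 1) (base X))
    (fun i ih X => I.zipB (M.e + k) (pw I B off (Nat.add p0 i))
      fun s => ih (sp I Bv 0 X (Nat.add p0 i) s)) i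

/-- All rows. -/
noncomputable def full (B off By Bv k : ℕ) (r : ℕ) : ℕ → I.Tb (k + 1) :=
  Nat.rec (motive := fun _ => ℕ → I.Tb (k + 1))
    (fun X => M.finish (k + 1) (row1 I M B off By Bv (k + 1) X))
    (fun r ih X => M.finish (k + 1)
      (row2 I M B off Bv k (Nat.mul (k + 1) (r + 1)) ih (k + 1) X)) r

theorem row1_eq (B off By Bv i X : ℕ) (ξ : M.Ξ) (y' : Fin i → S) (x : S) :
    I.get (M.e + i + 1) (row1 I M B off By Bv i X) (M.pth ξ ++ List.ofFn y' ++ [x])
      = Sem I B off Bv 0 (M.δ ξ) i X (fun X u => mr I By 0 0 u * X) y' x := by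
  induction i generalizing X x with
  | zero =>
    have := M.start_eq 0 (I.leaf X) [] ξ x rfl
    rw [Sem_zero, List.ofFn_zero, List.append_nil]
    refine this.trans ?_
    simp [I.get_leaf, mr]
  | succ i ih =>
    have := I.zipA_eq (M.e + i) (pw I B off i) (pw I By 0 i)
      (fun s => row1 I M B off By Bv i (sp I Bv 0 X i s)) (M.pth ξ ++ List.ofFn (Fin.init y'))
      (y' (Fin.last i)) x (by simp [M.len])
    rw [Sem_succ, ofFn_snoc', ← List.append_assoc, List.append_assoc _ [_] [_]]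
    refine this.trans ?_
    simp only [ih, zero_add, mr_snoc, ← Sem_mul]
    simp only [mul_comm, mul_left_comm, mul_assoc]

theorem row2_eq (B off Bv k p0 : ℕ) (base : ℕ → I.Tb (k + 1)) (i X : ℕ) (ξ : M.Ξ) (l : List S)
    (hl : l.length + i = k + 1) (y' : Fin i → S) (x : S) :
    I.get (M.e + (k + 1) + 1) (row2 I M B off Bv k p0 base i X)
        (l ++ M.pth ξ ++ List.ofFn y' ++ [x])
      = Sem I B off Bv p0 (M.δ ξ) i X (fun X u => I.get (k + 1) (base X) (List.ofFn u ++ l)) y' x := by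
  induction i generalizing X x l with
  | zero =>
    have := M.start_eq (k + 1) (base X) l ξ x hl
    rw [Sem_zero, List.ofFn_zero, List.append_nil]
    exact this
  | succ i ih =>
    have := I.zipB_eq (M.e + k) (pw I B off (p0 + i))
      (fun s => row2 I M B off Bv k p0 base i (sp I Bv 0 X (p0 + i) s))
      (l ++ M.pth ξ ++ List.ofFn (Fin.init y'))
      (y' (Fin.last i)) x (by simp [M.len]; omega)
    rw [Sem_succ, ofFn_snoc', ← List.append_assoc, List.append_assoc _ [_] [_]]
    refine this.trans ?_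
    refine Finset.sum_congr rfl fun a _ => congrArg _ (Finset.sum_congr rfl fun a' _ =>
      Finset.sum_congr rfl fun y _ => Finset.sum_congr rfl fun x1 _ => congrArg _ ?_)
    have h2 := ih (sp I Bv 0 X (p0 + i) a') (y :: l) (by simp; omega) (Fin.init y') x1
    refine h2.trans ?_
    congr 1
    funext X' u
    rw [ofFn_snoc']
    simp

/-- Meaning of a table after whole rows. -/
def Tab (b3 : S → S → ℕ) (B off By Bv k r X : ℕ) (y' : Fin k → S) : ℕ :=
  ∑ a : Fin r → Fin k → S, (∏ j : Fin r, mr I B off (k * j) (a j)) *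
    ∑ a', vG (sp I Bv 0) k r X a' * ∑ y, mr I By 0 0 y * G m r k b3 a' a y y'

theorem Tab_zero (B off By Bv k X : ℕ) (y' : Fin k → S) :
    Tab I b3 B off By Bv k 0 X y' = mr I By 0 0 y' * X := by
  simp [Tab, G, vG, Matrix.one_apply, mul_comm]

theorem Tab_succ (B off By Bv k r X : ℕ) (y' : Fin k → S) :
    Tab I b3 B off By Bv k (r + 1) X y' = (letI := M.fin; ∑ ξ, ∑ x, M.γ ξ x *
      Sem I B off Bv (k * r) (M.δ ξ) k X (Tab I b3 B off By Bv k r) y' x) := by
  letI := M.fin
  have e1 : ∑ ξ, ∑ x, M.γ ξ x * Sem I B off Bv (k * r) (M.δ ξ) k X (Tab I b3 B off By Bv k r) y' x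
      = ∑ a, mr I B off (k * r) a * ∑ a', ∑ y,
        Tab I b3 B off By Bv k r (subG (sp I Bv 0) (k * r) k X a') y * A m k b3 a' a y y' := by
    simp only [Sem, A, M.hb, Finset.mul_sum, Finset.sum_mul]
    rw [← Finset.sum_product', Finset.sum_comm]
    refine Finset.sum_congr rfl fun a _ => ?_
    rw [Finset.sum_comm]
    refine Finset.sum_congr rfl fun a' _ => ?_
    rw [Finset.sum_comm]
    refine Finset.sum_congr rfl fun y _ => ?_
    rw [Finset.sum_comm]
    refine Finset.sum_congr rfl fun x0 _ => ?_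
    rw [Finset.sum_product, Finset.sum_comm]
    exact Finset.sum_congr rfl fun x _ => Finset.sum_congr rfl fun ξ _ => by ring
  rw [e1]
  unfold Tab
  rw [sum_snoc, Finset.sum_comm]
  refine Finset.sum_congr rfl fun a _ => ?_
  simp only [sum_snoc (n := r), Fin.prod_univ_castSucc, Fin.snoc_castSucc, Fin.snoc_last,
    Fin.val_castSucc, Fin.val_last, vG, Fin.init_snoc, Finset.mul_sum, Finset.sum_mul]
  have g : ∀ (A' A0 : Fin r → Fin k → S) (a' : Fin k → S) y0,
      G m (r + 1) k b3 (Fin.snoc (α := fun _ => Fin k → S) A' a')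
        (Fin.snoc (α := fun _ => Fin k → S) A0 a) y0 y'
      = ∑ y, G m r k b3 A' A0 y0 y * A m k b3 a' a y y' := by
    intro A' A0 a' y0
    rw [G, prod_snoc, Matrix.mul_apply]
    have : (Fin.init fun j => A m k b3 (Fin.snoc (α := fun _ => Fin k → S) A' a' j)
        (Fin.snoc (α := fun _ => Fin k → S) A0 a j)) = fun j => A m k b3 (A' j) (A0 j) := by
      funext j; simp [Fin.init]
    rw [this]
    simp only [Fin.snoc_last, G]
  simp only [g, Finset.mul_sum]
  conv_lhs => enter [2, A0]; rw [Finset.sum_comm]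
  rw [Finset.sum_comm]
  refine Finset.sum_congr rfl fun a' _ => ?_
  conv_lhs => enter [2, A0, 2, A']; rw [Finset.sum_comm]
  conv_lhs => enter [2, A0]; rw [Finset.sum_comm]
  rw [Finset.sum_comm]
  exact Finset.sum_congr rfl fun y _ => Finset.sum_congr rfl fun A0 _ =>
    Finset.sum_congr rfl fun A' _ => Finset.sum_congr rfl fun y0 _ => by ring

theorem full_eq (B off By Bv k r X : ℕ) (y' : Fin (k + 1) → S) :
    I.get (k + 1) (full I M B off By Bv k r X) (List.ofFn y')
      = Tab I b3 B off By Bv (k + 1) (r + 1) X y' := by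
  letI := M.fin
  induction r generalizing X y' with
  | zero =>
    rw [Tab_succ I M]
    refine (M.finish_eq (k + 1) _ _ (by simp)).trans ?_
    simp only [row1_eq, mul_zero]
    congr! with ξ _ x _ X u
    rw [Tab_zero]
  | succ r ih =>
    rw [Tab_succ I M]
    refine (M.finish_eq (k + 1) _ _ (by simp)).trans ?_
    refine Finset.sum_congr rfl fun ξ _ => Finset.sum_congr rfl fun x _ => congrArg _ ?_
    refine (row2_eq I M B off Bv k _ _ (k + 1) X ξ [] (by simp) y' x).trans ?_
    congr 1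
    funext X' u
    rw [List.append_nil]
    exact ih X' u

/-- Weighted sum of a table. -/
noncomputable def dot (f : List S → ℕ) (d : ℕ) : I.Tb d → List S → ℕ :=
  Nat.rec (motive := fun d => I.Tb d → List S → ℕ) (fun t L => Nat.mul (f L) (I.val t))
    (fun d ih t L => I.sumS fun s => ih (I.ch d t s) (L ++ [s])) d

theorem dot_eq (f : List S → ℕ) (d : ℕ) (t : I.Tb d) (L : List S) :
    dot I f d t L = ∑ y : Fin d → S, f (L ++ List.ofFn y) * I.get d t (List.ofFn y) := by
  induction d generalizing L with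
  | zero =>
    show f L * I.val t = _
    simp [I.val_eq]
  | succ d ih =>
    show I.sumS (fun s => dot I f d (I.ch d t s) (L ++ [s])) = _
    rw [I.sumS_eq, ← Equiv.sum_comp (Fin.consEquiv fun _ => S), Fintype.sum_prod_type]
    refine Finset.sum_congr rfl fun s _ => ?_
    rw [ih]
    refine Finset.sum_congr rfl fun y _ => ?_
    simp [I.get_ch, Fin.consEquiv, List.ofFn_succ]

end Pool.Agent.MP_7c8df0_mp
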