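import Pool.Agent.MP_7c8df0_mp.Lim

/-! From logarithmic inequalities to bounds on the constant. -/

namespace Pool.Agent.MP_7c8df0_mp

theorem exp_ge {a h : ℝ} {n l1 l2 l3 : ℕ} (ha : 0 < a) (hn : 0 < n) (h2 : 0 < l2) (h3 : 0 < l3)
    (hl : (n : ℝ) * (Real.log l1 - Real.log l2) - Real.log l3 ≤ n * h)
    (hc : a ^ n * (l2 : ℝ) ^ n * l3 ≤ (l1 : ℝ) ^ n) : a ≤ Real.exp h := by
  have p2 : (0:ℝ) < l2 := by exact_mod_cast h2
  have p3 : (0:ℝ) < l3 := by exact_mod_cast h3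
  have pn : (0:ℝ) < n := by exact_mod_cast hn
  have := Real.log_le_log (by positivity) hc
  rw [Real.log_mul (by positivity) p3.ne', Real.log_mul (by positivity) (by positivity),
    Real.log_pow, Real.log_pow, Real.log_pow] at this
  rw [← Real.log_le_iff_le_exp ha]
  refine le_of_mul_le_mul_left ?_ pn
  linarith

theorem exp_le {a h c : ℝ} {n : ℕ} (ha : 0 < a) (hn : 0 < n) (hc0 : 0 < c)
    (hl : (n : ℝ) * h ≤ Real.log c) (hc : c ≤ a ^ n) : Real.exp h ≤ a := by
  have pn : (0:ℝ) < n := by exact_mod_cast hn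
  have := Real.log_le_log hc0 hc
  rw [Real.log_pow] at this
  rw [← Real.le_log_iff_exp_le ha]
  refine le_of_mul_le_mul_left ?_ pn
  linarith

end Pool.Agent.MP_7c8df0_mp
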