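import Pool.Agent.MP_7c8df0_mp.Box

/-! The entropy per site: existence of the limit and comparison inequalities. -/

set_option linter.unusedSectionVars false

namespace Pool.Agent.MP_7c8df0_mp
open Matrix Finset Filter

variable {S : Type} [Fintype S] [DecidableEq S] [Nonempty S] (m : Model S)

/-- Logarithm of the number of configurations. -/
noncomputable def z (n1 : ℕ) (b1 : S → S → ℕ) (n2 : ℕ) (b2 : S → S → ℕ) (n3 : ℕ)
    (b3 : S → S → ℕ) : ℝ := Real.log (Z m n1 b1 n2 b2 n3 b3)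

/-- Logarithm of the number of edge states. -/
noncomputable def LS (S : Type) [Fintype S] : ℝ := Real.log (Fintype.card S)

theorem LS_nonneg : 0 ≤ LS S := Real.log_natCast_nonneg _

theorem log_card (a b : ℕ) : Real.log (Fintype.card (Fin a → Fin b → S)) = a * b * LS S := by
  simp only [Fintype.card_fun, Fintype.card_fin, ← pow_mul, Nat.cast_pow, Real.log_pow, LS]
  push_cast; ring

theorem z12 (n1 : ℕ) (b1 : S → S → ℕ) (n2 : ℕ) (b2 : S → S → ℕ) (n3 : ℕ) (b3 : S → S → ℕ) :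
    z m n1 b1 n2 b2 n3 b3 = z m n2 b2 n1 b1 n3 b3 := by rw [z, z, Z12]
theorem z23 (n1 : ℕ) (b1 : S → S → ℕ) (n2 : ℕ) (b2 : S → S → ℕ) (n3 : ℕ) (b3 : S → S → ℕ) :
    z m n1 b1 n2 b2 n3 b3 = z m n1 b1 n3 b3 n2 b2 := by rw [z, z, Z23]
theorem z13 (n1 : ℕ) (b1 : S → S → ℕ) (n2 : ℕ) (b2 : S → S → ℕ) (n3 : ℕ) (b3 : S → S → ℕ) :
    z m n1 b1 n2 b2 n3 b3 = z m n3 b3 n2 b2 n1 b1 := by rw [z12, z23, z12]

theorem z_le {n1 n2 n3 n1' n2' n3' : ℕ} {b1 b2 b3 b1' b2' b3' : S → S → ℕ}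
    (h0 : 0 < Z m n1 b1 n2 b2 n3 b3) (h : Z m n1 b1 n2 b2 n3 b3 ≤ Z m n1' b1' n2' b2' n3' b3') :
    z m n1 b1 n2 b2 n3 b3 ≤ z m n1' b1' n2' b2' n3' b3' :=
  Real.log_le_log (by exact_mod_cast h0) (by exact_mod_cast h)

section
variable {n2 n3 : ℕ} {b2 b3 : S → S → ℕ} (h2 : Inv m b2) (h3 : Inv m b3)
include h2 h3

theorem J0 (n k : ℕ) (hn : 0 < n) (h : 0 < Z m n fr n2 b2 n3 b3) :
    k * z m n fr n2 b2 n3 b3 ≤ k * (n2 * n3 * LS S) + n * z m k fr n2 b2 n3 b3 := by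
  rw [Z_fr] at h
  have := I0 _ (T_symm m n2 b2 n3 b3 h2 h3) n k hn h
  rwa [log_card, ← Z_fr, ← Z_fr] at this

theorem J1 (n p : ℕ) (hn : 0 < n) (h : 0 < Z m n fr n2 b2 n3 b3) :
    (2 * p : ℕ) * z m n fr n2 b2 n3 b3
      ≤ (2 * p : ℕ) * (n2 * n3 * LS S) + n * z m (2 * p) cy n2 b2 n3 b3 := by
  rw [Z_fr] at h
  have := I1 _ (T_symm m n2 b2 n3 b3 h2 h3) n p hn h
  rwa [log_card, ← Z_fr, ← Z_cy] at this

theorem J2 (n q : ℕ) (h : 0 < Z m (2 * q + 1) fr n2 b2 n3 b3) :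
    n * z m (2 * q + 1) fr n2 b2 n3 b3
      ≤ n * z m (2 * q) fr n2 b2 n3 b3 + z m n fr n2 b2 n3 b3 := by
  rw [Z_fr] at h
  have := I2 _ (T_symm m n2 b2 n3 b3 h2 h3) n q h
  rwa [← Z_fr, ← Z_fr, ← Z_fr] at this

theorem J3 (R : S → Prop) [DecidablePred R] (y u : S) (hy : 1 ≤ b2 y y) (hu : 1 ≤ b3 u u)
    (hw : ∀ a, R a → 1 ≤ m.w a a y y u u) {p n : ℕ} (hp : 2 * p ≤ n)
    (h : 0 < Z m p (rs R) n2 b2 n3 b3) :
    2 * z m p (rs R) n2 b2 n3 b3 ≤ 2 * (n2 * n3 * LS S) + z m n cy n2 b2 n3 b3 := by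
  have := I3 _ (T_symm m n2 b2 n3 b3 h2 h3) (fun t => if ∀ j k, R (t j k) then 1 else 0)
    (fun t => by split_ifs <;> simp) (fun t => by
      split_ifs with ht
      · exact T_ge m _ _ _ _ t t (fun _ _ => y) (fun _ _ => u) (fun _ => hy) (fun _ => hu)
          fun j k => hw _ (ht j k)
      · exact Nat.zero_le _) hp
  rw [← Z_rs, ← Z_cy] at this
  have h0 : 0 < Z m p (rs R) n2 b2 n3 b3 ^ 2 := pow_pos h 2
  have h1 := h0.trans_le this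
  have h1' : (0:ℝ) < Z m n cy n2 b2 n3 b3 := by exact_mod_cast Nat.pos_of_mul_pos_left h1
  have hc : (0:ℝ) < Fintype.card (Fin n2 → Fin n3 → S) := by exact_mod_cast Fintype.card_pos
  have h4 := Real.log_le_log (by exact_mod_cast h0) (show ((Z m p (rs R) n2 b2 n3 b3 : ℝ) ^ 2)
    ≤ (Fintype.card (Fin n2 → Fin n3 → S) : ℝ) ^ 2 * Z m n cy n2 b2 n3 b3 by exact_mod_cast this)
  rw [Real.log_mul (pow_pos hc 2).ne' h1'.ne', Real.log_pow, Real.log_pow, log_card] at h4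
  exact_mod_cast h4

theorem J4 (a y u : S) (hy : 1 ≤ b2 y y) (hu : 1 ≤ b3 u u)
    (hw : 1 ≤ m.w a a y y u u) {b K p : ℕ} (hp : 2 * b * K ≤ p) :
    2 * K * z m b (rs (· = a)) n2 b2 n3 b3
      ≤ K * (n2 * n3 * LS S) + z m p (rs (· = a)) n2 b2 n3 b3 := by
  have e : ∀ n, Z m n (rs (· = a)) n2 b2 n3 b3
      = ∑ s, (T m n2 b2 n3 b3 ^ n) s (fun _ _ => a) := by
    intro n
    rw [Z_rs]
    refine Finset.sum_congr rfl fun s _ => ?_
    rw [Finset.sum_eq_single (fun _ _ => a)]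
    · simp
    · intro t _ ht
      rw [if_neg, zero_mul]
      exact fun h => ht (funext fun j => funext fun k => h j k)
    · simp
  have := I4 _ (T_symm m n2 b2 n3 b3 h2 h3) (fun _ _ => a)
    (T_ge m _ _ _ _ _ _ (fun _ _ => y) (fun _ _ => u) (fun _ => hy) (fun _ => hu)
          fun j k => hw) hp
  rw [← e, ← e] at this
  have hp : ∀ n, (0:ℝ) < Z m n (rs (· = a)) n2 b2 n3 b3 := fun n => by
    exact_mod_cast Z_pos m _ _ _ _ _ _ a y u (by simp [rs]) hy hu hw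
  have hc : (0:ℝ) < Fintype.card (Fin n2 → Fin n3 → S) := by exact_mod_cast Fintype.card_pos
  have h4 := Real.log_le_log (pow_pos (hp b) _) (show ((Z m b (rs (· = a)) n2 b2 n3 b3 : ℝ) ^ (2 * K))
    ≤ (Fintype.card (Fin n2 → Fin n3 → S) : ℝ) ^ K * Z m p (rs (· = a)) n2 b2 n3 b3 by
      exact_mod_cast this)
  rw [Real.log_mul (pow_pos hc K).ne' (hp p).ne', Real.log_pow, Real.log_pow, log_card] at h4
  exact_mod_cast h4

end

/-- The entropy per site. -/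
noncomputable def ent : ℝ :=
  ⨅ t : ℕ × ℕ × ℕ, z m (t.1 + 1) fr (t.2.1 + 1) fr (t.2.2 + 1) fr /
    ((t.1 + 1 : ℕ) * (t.2.1 + 1 : ℕ) * (t.2.2 + 1 : ℕ))

theorem z_nonneg (n1 : ℕ) (b1 : S → S → ℕ) (n2 : ℕ) (b2 : S → S → ℕ) (n3 : ℕ)
    (b3 : S → S → ℕ) : 0 ≤ z m n1 b1 n2 b2 n3 b3 := Real.log_natCast_nonneg _

theorem ent_nonneg : 0 ≤ ent m :=
  Real.iInf_nonneg fun _ => div_nonneg (z_nonneg ..) (by positivity)

theorem ent_le (a b c : ℕ) : a * b * c * ent m ≤ z m a fr b fr c fr := by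
  rcases a with _ | a
  · simpa using z_nonneg ..
  rcases b with _ | b
  · simpa using z_nonneg ..
  rcases c with _ | c
  · simpa using z_nonneg ..
  have : ent m ≤ _ := ciInf_le (f := fun t : ℕ × ℕ × ℕ =>
    z m (t.1 + 1) fr (t.2.1 + 1) fr (t.2.2 + 1) fr /
      ((t.1 + 1 : ℕ) * (t.2.1 + 1 : ℕ) * (t.2.2 + 1 : ℕ)))
    ⟨0, by rintro _ ⟨t, rfl⟩; exact div_nonneg (z_nonneg ..) (by positivity)⟩ (a, b, c)
  rw [le_div_iff₀ (by positivity)] at this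
  simpa [mul_comm] using this

/-- A constant configuration exists. -/
def Const : Prop := ∃ x y u, 1 ≤ m.w x x y y u u

theorem Const.pos {m : Model S} (h : Const m) (n1 n2 n3 : ℕ) {b1 b2 b3 : S → S → ℕ}
    (h1 : ∀ s, 1 ≤ b1 s s) (h2 : ∀ s, 1 ≤ b2 s s) (h3 : ∀ s, 1 ≤ b3 s s) :
    0 < Z m n1 b1 n2 b2 n3 b3 := by
  obtain ⟨x, y, u, h⟩ := h
  exact Z_pos m _ _ _ _ _ _ x y u (h1 _) (h2 _) (h3 _) h

theorem fr1 (s : S) : 1 ≤ fr s s := le_rfl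
theorem cy1 (s : S) : 1 ≤ cy s s := by simp [cy]

theorem cube_le (hc : Const m) (n : ℕ) (hn : 0 < n) :
    z m n fr n fr n fr ≤ 3 * n ^ 2 * LS S + n ^ 3 * ent m := by
  have hn' : (0:ℝ) < n := by exact_mod_cast hn
  have : (z m n fr n fr n fr - 3 * n ^ 2 * LS S) / n ^ 3 ≤ ent m := by
    refine le_ciInf fun ⟨a, b, c⟩ => ?_
    simp only
    generalize ha : a + 1 = a'
    generalize hb : b + 1 = b'
    generalize hc' : c + 1 = c'
    have a0 : (0:ℝ) < a' := by rw [← ha]; positivity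
    have b0 : (0:ℝ) < b' := by rw [← hb]; positivity
    have c0 : (0:ℝ) < c' := by rw [← hc']; positivity
    have e1 := J0 m (inv_fr m) (inv_fr m) (n2 := n) (n3 := n) n a' hn (hc.pos _ _ _ fr1 fr1 fr1)
    have e2 := J0 m (inv_fr m) (inv_fr m) (n2 := a') (n3 := n) n b' hn (hc.pos _ _ _ fr1 fr1 fr1)
    have e3 := J0 m (inv_fr m) (inv_fr m) (n2 := b') (n3 := a') n c' hn (hc.pos _ _ _ fr1 fr1 fr1)
    rw [z12 m a'] at e1
    rw [z12 m b', z13 m a'] at e2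
    rw [z13 m c'] at e3
    rw [div_le_div_iff₀ (by positivity) (by positivity)]
    have f1 := mul_le_mul_of_nonneg_left e1 (mul_pos b0 c0).le
    have f2 := mul_le_mul_of_nonneg_left e2 (mul_pos hn' c0).le
    have f3 := mul_le_mul_of_nonneg_left e3 (mul_pos hn' hn').le
    nlinarith
  rw [div_le_iff₀ (by positivity)] at this
  linarith

theorem torus_le (hc : Const m) (n : ℕ) (hn : 0 < n) :
    z m n cy n cy n cy ≤ 3 * n ^ 2 * LS S + n ^ 3 * ent m := by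
  have h : ∀ s t : S, cy s t ≤ fr s t := fun s t => by unfold cy fr; split_ifs <;> simp
  exact (z_le m (hc.pos _ _ _ cy1 cy1 cy1) (Z_mono m _ _ _ _ _ _ _ _ _ h h h)).trans
    (cube_le m hc n hn)

theorem inv_rs (R : S → Prop) [DecidablePred R] (h : ∀ s, R (m.ng s) ↔ R s) : Inv m (rs R) :=
  fun s t => by simp only [rs, h]

theorem torus_ge (R1 R2 R3 : S → Prop) [DecidablePred R1] [DecidablePred R2] [DecidablePred R3]
    (i1 : ∀ s, R1 (m.ng s) ↔ R1 s) (i3 : ∀ s, R3 (m.ng s) ↔ R3 s)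
    (h0 : ∃ x y u, R1 x ∧ R2 y ∧ R3 u ∧ 1 ≤ m.w x x y y u u)
    (h1 : ∃ y u, ∀ a, R1 a → 1 ≤ m.w a a y y u u)
    (h3 : ∃ x y, R1 x ∧ ∀ a, R3 a → 1 ≤ m.w a a x x y y)
    (h2 : ∃ x u, R1 x ∧ R3 u ∧ ∀ a, R2 a → 1 ≤ m.w a a x x u u) (n : ℕ) :
    8 * z m (n / 2) (rs R1) (n / 2) (rs R2) (n / 2) (rs R3)
      ≤ 14 * n ^ 2 * LS S + z m n cy n cy n cy := by
  obtain ⟨x0, y0, u0, hx0, hy0, hu0, h0⟩ := h0
  obtain ⟨y1, u1, h1⟩ := h1
  obtain ⟨x3, y3, hx3, h3⟩ := h3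
  obtain ⟨x2, u2, hx2, hu2, h2⟩ := h2
  set p := n / 2 with hp
  have hpn : 2 * p ≤ n := Nat.mul_div_le n 2
  have e1 := J3 m (inv_cy m) (inv_cy m) (n2 := n) (n3 := n) R1 y1 u1 (cy1 _) (cy1 _) h1 hpn
    (Z_pos m _ _ _ _ _ _ x0 y0 u0 (by simp [rs, hx0]) (cy1 _) (cy1 _) h0)
  have e3 := J3 m (inv_rs m R1 i1) (inv_cy m) (n2 := p) (n3 := n) R3 x3 y3 (by simp [rs, hx3])
    (cy1 _) h3 hpn
    (Z_pos m _ _ _ _ _ _ u0 x0 y0 (by simp [rs, hu0]) (by simp [rs, hx0]) (cy1 _)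
      (by rwa [m.s12, m.s23]))
  have e2 := J3 m (inv_rs m R1 i1) (inv_rs m R3 i3) (n2 := p) (n3 := p) R2 x2 u2
    (by simp [rs, hx2]) (by simp [rs, hu2]) h2 hpn
    (Z_pos m _ _ _ _ _ _ y0 x0 u0 (by simp [rs, hy0]) (by simp [rs, hx0]) (by simp [rs, hu0])
      (by rwa [m.s12]))
  rw [z12 m n cy p] at e3
  rw [z13 m n cy p, z12 m p (rs R2)] at e2
  have hL : 0 ≤ LS S := LS_nonneg
  have hp' : (p:ℝ) ≤ n := by exact_mod_cast Nat.div_le_self n 2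
  have p0 : (0:ℝ) ≤ p := Nat.cast_nonneg p
  have a1 : (p:ℝ) * n * LS S ≤ n * n * LS S := by gcongr
  have a2 : (p:ℝ) * p * LS S ≤ n * n * LS S := by gcongr
  nlinarith

theorem tendsto_ent (hc : Const m) (f : ℕ → ℝ)
    (hf : ∀ n, 8 * f (n / 2) ≤ 14 * n ^ 2 * LS S + z m n cy n cy n cy)
    (hlow : ∀ ε > 0, ∃ p0 : ℕ, ∀ p ≥ p0, (p:ℝ) ^ 3 * (ent m - ε) ≤ f p) :
    Tendsto (fun n : ℕ => (Z m n cy n cy n cy : ℝ) ^ ((1:ℝ) / (n:ℝ) ^ 3)) atTop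
      (nhds (Real.exp (ent m))) := by
  have key : Tendsto (fun n : ℕ => z m n cy n cy n cy * ((1:ℝ) / (n:ℝ) ^ 3)) atTop
      (nhds (ent m)) := by
    rw [Metric.tendsto_atTop]
    intro ε hε
    obtain ⟨p0, hp0⟩ := hlow (ε / 2) (by positivity)
    have hL : 0 ≤ LS S := LS_nonneg
    have hh := ent_nonneg m
    obtain ⟨N, hN⟩ := exists_nat_gt ((3 * ent m + 14 * LS S) / (ε / 2))
    refine ⟨2 * p0 + N + 1, fun n hn => ?_⟩
    have n0 : (0:ℝ) < n := by exact_mod_cast (by omega : 0 < n)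
    have hN' : (N:ℝ) ≤ n := by exact_mod_cast (by omega : N ≤ n)
    rw [div_lt_iff₀ (by positivity)] at hN
    have hC : 3 * ent m + 14 * LS S < n * (ε / 2) := by nlinarith
    have u := torus_le m hc n (by omega)
    have l1 := hf n
    have l2 := hp0 (n / 2) (by omega)
    have q1 : 2 * ((n / 2 : ℕ) : ℝ) ≤ n := by exact_mod_cast Nat.mul_div_le n 2
    have q2 : (n:ℝ) - 1 ≤ 2 * ((n / 2 : ℕ) : ℝ) := by
      have : n ≤ 2 * (n / 2) + 1 := by omega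
      have : (n:ℝ) ≤ 2 * ((n / 2 : ℕ) : ℝ) + 1 := by exact_mod_cast this
      linarith
    have n1 : (1:ℝ) ≤ n := by exact_mod_cast (by omega : 1 ≤ n)
    generalize ((n / 2 : ℕ) : ℝ) = p at q1 q2 l2
    have r1 : (2 * p) ^ 3 ≤ (n:ℝ) ^ 3 := pow_le_pow_left₀ (by linarith) q1 3
    have r2 : ((n:ℝ) - 1) ^ 3 ≤ (2 * p) ^ 3 := pow_le_pow_left₀ (by linarith) q2 3
    have r3 : (n:ℝ) ^ 3 - 3 * n ^ 2 ≤ 8 * p ^ 3 := by nlinarith
    have r4 : 8 * p ^ 3 * (ε / 2) ≤ n ^ 3 * (ε / 2) := by nlinarith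
    have r5 : ((n:ℝ) ^ 3 - 3 * n ^ 2) * ent m ≤ 8 * p ^ 3 * ent m := by gcongr
    have r6 : (n:ℝ) ^ 2 * (3 * ent m + 14 * LS S) < n ^ 2 * (n * (ε / 2)) := by gcongr
    have n2 : (0:ℝ) ≤ (n:ℝ) ^ 2 * ent m := by positivity
    have n3 : (0:ℝ) ≤ (n:ℝ) ^ 2 * LS S := by positivity
    have n4 : (0:ℝ) < (n:ℝ) ^ 3 * ε := by positivity
    rw [Real.dist_eq, abs_lt, mul_one_div, lt_sub_iff_add_lt, sub_lt_iff_lt_add,
      lt_div_iff₀ (by positivity), div_lt_iff₀ (by positivity)]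
    constructor <;> nlinarith
  refine ((Real.continuous_exp.tendsto _).comp key).congr fun n => ?_
  have : (0:ℝ) < Z m n cy n cy n cy := by exact_mod_cast hc.pos _ _ _ cy1 cy1 cy1
  simp only [Function.comp, z]
  rw [Real.rpow_def_of_pos this]

theorem lim1 {x y C : ℝ} (h : ∀ n : ℕ, 0 < n → n * x ≤ n * y + C) : x ≤ y := by
  by_contra hxy
  push Not at hxy
  obtain ⟨N, hN⟩ := exists_nat_gt (C / (x - y))
  rw [div_lt_iff₀ (by linarith)] at hN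
  have := h (N + 1) (by omega)
  push_cast at this
  nlinarith

/-- Exponential upper bound on the entry sums of the powers. -/
def Up {ι : Type} [Fintype ι] [DecidableEq ι] (M : Matrix ι ι ℕ) (l : ℕ) : Prop :=
  ∃ C : ℕ, ∀ n, F M n ≤ l ^ n * C

/-- Exponential lower bound on the entry sums of the powers. -/
def Lo {ι : Type} [Fintype ι] [DecidableEq ι] (M : Matrix ι ι ℕ) (l : ℕ) : Prop :=
  ∃ V : ℕ, ∀ n, l ^ n ≤ V * F M n

theorem Up.z_le {m : Model S} {n2 n3 l : ℕ} {b2 b3 : S → S → ℕ} (h : Up (T m n2 b2 n3 b3) l)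
    (hl : 0 < l) (hp : ∀ n, 0 < Z m n fr n2 b2 n3 b3) :
    ∃ C : ℝ, ∀ n, z m n fr n2 b2 n3 b3 ≤ n * Real.log l + C := by
  obtain ⟨C, h⟩ := h
  refine ⟨Real.log C, fun n => ?_⟩
  have h1 := h n
  rw [← Z_fr] at h1
  have hC : (0:ℝ) < C := by exact_mod_cast Nat.pos_of_mul_pos_left ((hp n).trans_le h1)
  have hl' : (0:ℝ) < l := by exact_mod_cast hl
  rw [← Real.log_pow, ← Real.log_mul (pow_pos hl' n).ne' hC.ne']
  exact Real.log_le_log (by exact_mod_cast hp n) (by exact_mod_cast h1)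

theorem Lo.le_z {m : Model S} {n2 n3 l : ℕ} {b2 b3 : S → S → ℕ} (h : Lo (T m n2 b2 n3 b3) l)
    (hl : 0 < l) : ∃ C : ℝ, ∀ n : ℕ, n * Real.log l ≤ z m n fr n2 b2 n3 b3 + C := by
  obtain ⟨V, h⟩ := h
  refine ⟨Real.log V, fun n => ?_⟩
  have h1 := h n
  rw [← Z_fr] at h1
  have h2 := (pow_pos hl n).trans_le h1
  have hC : (0:ℝ) < V := by exact_mod_cast Nat.pos_of_mul_pos_right h2
  have hZ : (0:ℝ) < Z m n fr n2 b2 n3 b3 := by exact_mod_cast Nat.pos_of_mul_pos_left h2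
  have hl' : (0:ℝ) < l := by exact_mod_cast hl
  rw [← Real.log_pow, z, ← Real.log_mul hZ.ne' hC.ne', mul_comm]
  exact Real.log_le_log (pow_pos hl' n) (by exact_mod_cast h1)

theorem ent_lower (hc : Const m) (q r l1 l2 l3 : ℕ) (p1 : 0 < l1) (p2 : 0 < l2) (p3 : 0 < l3)
    (h1 : Lo (T m (2 * q + 1) fr 3 fr) l1) (h2 : Up (T m (2 * q) fr 3 fr) l2)
    (h3 : Up (T m 2 fr (2 * r) cy) l3) :
    (2 * r : ℕ) * (Real.log l1 - Real.log l2) - Real.log l3 ≤ (2 * r : ℕ) * ent m := by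
  obtain ⟨C1, h1⟩ := h1.le_z p1
  obtain ⟨C2, h2⟩ := h2.z_le p2 fun _ => hc.pos _ _ _ fr1 fr1 fr1
  obtain ⟨C3, h3⟩ := h3.z_le p3 fun _ => hc.pos _ _ _ fr1 fr1 cy1
  refine lim1 (C := (2 * r : ℕ) * (C1 + C2 + 5 * LS S) + C3) fun n hn => ?_
  have n0 : (0:ℝ) < n := by exact_mod_cast hn
  have r0 : (0:ℝ) ≤ (2 * r : ℕ) := Nat.cast_nonneg _
  have e0 := cube_le m hc n hn
  have e1 := J2 m (inv_fr m) (inv_fr m) (n2 := n) (n3 := n) n 1 (hc.pos _ _ _ fr1 fr1 fr1)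
  have e2 := J2 m (inv_fr m) (inv_fr m) (n2 := 3) (n3 := n) n q (hc.pos _ _ _ fr1 fr1 fr1)
  have e3 := J1 m (inv_fr m) (inv_fr m) (n2 := 2) (n3 := n) n r hn (hc.pos _ _ _ fr1 fr1 fr1)
  rw [z12 m (2 * 1 + 1), z12 m (2 * 1)] at e1
  rw [z13 m (2 * q + 1), z13 m (2 * q), z23 m n fr 3 fr (2 * q + 1), z23 m n fr 3 fr (2 * q)] at e2
  rw [z13 m (2 * r)] at e3
  have g1 := h1 n
  have g2 := h2 n
  have g3 := h3 n
  norm_num only at e1
  push_cast at e3 r0 ⊢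
  refine le_of_mul_le_mul_left ?_ (mul_pos n0 n0)
  have f0 := mul_le_mul_of_nonneg_left e0 r0
  have f1 := mul_le_mul_of_nonneg_left e1 r0
  have f2 := mul_le_mul_of_nonneg_left e2 (mul_nonneg r0 n0.le)
  have f3 := mul_le_mul_of_nonneg_left e3 n0.le
  have f4 := mul_le_mul_of_nonneg_left g1 (mul_nonneg r0 (mul_pos n0 n0).le)
  have f5 := mul_le_mul_of_nonneg_left g2 (mul_nonneg r0 (mul_pos n0 n0).le)
  have f6 := mul_le_mul_of_nonneg_left g3 (mul_pos n0 n0).le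
  nlinarith

theorem ent_upper (hc : Const m) (k p : ℕ) (x C0 : ℝ)
    (h : ∀ n, ∃ L : ℕ, 0 < L ∧ Up (T m (k * n) fr (2 * p) cy) L ∧ Real.log L ≤ C0 + n * x) :
    (2 * p : ℕ) * k * ent m ≤ x := by
  refine lim1 (C := C0) fun n _ => ?_
  obtain ⟨L, hL, h1, h2⟩ := h n
  obtain ⟨C, hC⟩ := h1.z_le hL fun _ => hc.pos _ _ _ fr1 fr1 cy1
  refine lim1 (C := (2 * p : ℕ) * (k * n * LS S) + C) fun N hN => ?_
  have N0 : (0:ℝ) < N := by exact_mod_cast hN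
  have e0 := ent_le m N N (k * n)
  have e1 := J1 m (inv_fr m) (inv_fr m) (n2 := N) (n3 := k * n) N p hN (hc.pos _ _ _ fr1 fr1 fr1)
  rw [z12 m (2 * p), z23 m N fr (2 * p)] at e1
  have g := (hC N).trans (add_le_add_left (mul_le_mul_of_nonneg_left h2 N0.le) C)
  have r0 : (0:ℝ) ≤ (2 * p : ℕ) := Nat.cast_nonneg _
  refine le_of_mul_le_mul_left ?_ N0
  have f0 := mul_le_mul_of_nonneg_left e0 r0
  have f1 := mul_le_mul_of_nonneg_left g N0.le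
  push_cast at *
  nlinarith

end Pool.Agent.MP_7c8df0_mp
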