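import Mathlib.Analysis.Matrix.Spectrum
import Mathlib.Algebra.Order.Chebyshev
import Mathlib.Analysis.SpecialFunctions.Pow.Real
import Mathlib.Tactic

/-! Inequalities for symmetric matrices with natural entries. -/

namespace Pool.Agent.MP_7c8df0_mp
open Matrix Finset

variable {ι : Type} [Fintype ι] [DecidableEq ι]

theorem spec [Nonempty ι] (M : Matrix ι ι ℝ) (hs : Mᵀ = M) (h0 : ∀ n i j, 0 ≤ (M ^ n) i j) :
    ∃ ρ : ℝ, 0 ≤ ρ ∧ (∀ (n : ℕ) (v : ι → ℝ), v ⬝ᵥ ((M ^ n) *ᵥ v) ≤ ρ ^ n * (v ⬝ᵥ v)) ∧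
      (∀ n : ℕ, ρ ^ n ≤ ∑ i, ∑ j, (M ^ n) i j) ∧ ∀ p : ℕ, ρ ^ (2 * p) ≤ ∑ i, (M ^ (2 * p)) i i := by
  have hH : M.IsHermitian := by
    unfold Matrix.IsHermitian
    rw [Matrix.conjTranspose_eq_transpose_of_trivial, hs]
  obtain ⟨U, l, hU1, hU2, hM⟩ : ∃ (U : Matrix ι ι ℝ) (l : ι → ℝ), Uᵀ * U = 1 ∧ U * Uᵀ = 1 ∧
      M = U * diagonal l * Uᵀ := by
    refine ⟨(hH.eigenvectorUnitary : Matrix ι ι ℝ), hH.eigenvalues, ?_, ?_, ?_⟩
    · have := hH.eigenvectorUnitary.2.1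
      rwa [Matrix.star_eq_conjTranspose, Matrix.conjTranspose_eq_transpose_of_trivial] at this
    · have := hH.eigenvectorUnitary.2.2
      rwa [Matrix.star_eq_conjTranspose, Matrix.conjTranspose_eq_transpose_of_trivial] at this
    · have := hH.spectral_theorem
      rw [Unitary.conjStarAlgAut_apply] at this
      simpa [Matrix.star_eq_conjTranspose, Matrix.conjTranspose_eq_transpose_of_trivial] using this
  have hpow : ∀ n : ℕ, M ^ n = U * diagonal (fun i => l i ^ n) * Uᵀ := by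
    intro n
    induction n with
    | zero => simp [hU2]
    | succ n ih =>
      rw [pow_succ, ih]
      conv_lhs => rw [hM]
      have : U * diagonal (fun i => l i ^ n) * Uᵀ * (U * diagonal l * Uᵀ)
          = U * (diagonal (fun i => l i ^ n) * (Uᵀ * U) * diagonal l) * Uᵀ := by
        simp only [Matrix.mul_assoc]
      rw [this, hU1, Matrix.mul_one, diagonal_mul_diagonal]
      simp [pow_succ]
  obtain ⟨j0, -, hj0⟩ := Finset.exists_max_image Finset.univ (fun i => |l i|) Finset.univ_nonempty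
  refine ⟨|l j0|, abs_nonneg _, ?_, ?_, ?_⟩
  · intro n v
    have e1 : v ⬝ᵥ ((M ^ n) *ᵥ v) = ∑ i, l i ^ n * ((Uᵀ *ᵥ v) i) ^ 2 := by
      rw [hpow, ← Matrix.mulVec_mulVec, ← Matrix.mulVec_mulVec, Matrix.dotProduct_mulVec,
        ← Matrix.mulVec_transpose]
      simp only [dotProduct, mulVec_diagonal]
      exact Finset.sum_congr rfl fun i _ => by ring
    have e2 : v ⬝ᵥ v = ∑ i, ((Uᵀ *ᵥ v) i) ^ 2 := by
      have : v ⬝ᵥ v = v ⬝ᵥ ((U * Uᵀ) *ᵥ v) := by rw [hU2, Matrix.one_mulVec]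
      rw [this, ← Matrix.mulVec_mulVec, Matrix.dotProduct_mulVec, ← Matrix.mulVec_transpose]
      simp only [dotProduct]
      exact Finset.sum_congr rfl fun i _ => by ring
    rw [e1, e2, Finset.mul_sum]
    refine Finset.sum_le_sum fun i _ => mul_le_mul_of_nonneg_right ?_ (sq_nonneg _)
    calc l i ^ n ≤ |l i ^ n| := le_abs_self _
      _ = |l i| ^ n := abs_pow _ _
      _ ≤ |l j0| ^ n := pow_le_pow_left₀ (abs_nonneg _) (hj0 i (Finset.mem_univ _)) n
  · intro n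
    have e1 : Uᵀ * (M ^ n) * U = diagonal (fun i => l i ^ n) := by
      rw [hpow]
      have : Uᵀ * (U * diagonal (fun i => l i ^ n) * Uᵀ) * U
          = (Uᵀ * U) * diagonal (fun i => l i ^ n) * (Uᵀ * U) := by simp only [Matrix.mul_assoc]
      rw [this, hU1]; simp
    have e2 : l j0 ^ n = ∑ t, ∑ s, U s j0 * (M ^ n) s t * U t j0 := by
      have := congrFun (congrFun e1 j0) j0
      simp only [Matrix.mul_apply, diagonal_apply_eq, transpose_apply, Finset.sum_mul] at this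
      exact this.symm
    have e3 : ∀ s, |U s j0| ≤ 1 := by
      intro s
      have := congrFun (congrFun hU1 j0) j0
      simp only [Matrix.mul_apply, transpose_apply, one_apply_eq] at this
      have h2 : U s j0 * U s j0 ≤ 1 := by
        rw [← this]
        exact Finset.single_le_sum (f := fun s => U s j0 * U s j0)
          (fun i _ => mul_self_nonneg _) (Finset.mem_univ s)
      exact abs_le_one_iff_mul_self_le_one.2 h2
    rw [← abs_pow, e2, Finset.sum_comm]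
    refine (Finset.abs_sum_le_sum_abs _ _).trans (Finset.sum_le_sum fun s _ => ?_)
    refine (Finset.abs_sum_le_sum_abs _ _).trans (Finset.sum_le_sum fun t _ => ?_)
    rw [abs_mul, abs_mul, abs_of_nonneg (h0 n s t)]
    have := h0 n s t
    calc |U s j0| * (M ^ n) s t * |U t j0| ≤ 1 * (M ^ n) s t * 1 := by
          gcongr <;> exact e3 _
      _ = _ := by ring
  · intro p
    have e1 : ∑ i, (M ^ (2 * p)) i i = ∑ i, l i ^ (2 * p) := by
      have : (M ^ (2 * p)).trace = (diagonal (fun i => l i ^ (2 * p))).trace := by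
        rw [hpow, Matrix.trace_mul_comm, ← Matrix.mul_assoc, hU1, Matrix.one_mul]
      simpa [Matrix.trace] using this
    rw [e1, pow_mul, sq_abs, ← pow_mul]
    exact Finset.single_le_sum (f := fun i => l i ^ (2 * p))
      (fun i _ => by rw [pow_mul]; positivity) (Finset.mem_univ j0)

/-- Sum of all entries of `M ^ n`. -/
def F (M : Matrix ι ι ℕ) (n : ℕ) : ℕ := ∑ i, ∑ j, (M ^ n) i j

/-- Trace of `M ^ n`. -/
def P (M : Matrix ι ι ℕ) (n : ℕ) : ℕ := ∑ i, (M ^ n) i i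

theorem specN [Nonempty ι] (M : Matrix ι ι ℕ) (hs : Mᵀ = M) :
    ∃ ρ : ℝ, 0 ≤ ρ ∧ (∀ n, (F M n : ℝ) ≤ Fintype.card ι * ρ ^ n) ∧
      (∀ q, (F M (2 * q + 1) : ℝ) ≤ ρ * F M (2 * q)) ∧
      (∀ n, ρ ^ n ≤ F M n) ∧ ∀ p, ρ ^ (2 * p) ≤ P M (2 * p) := by
  set A : Matrix ι ι ℝ := M.map (Nat.castRingHom ℝ) with hA
  have hp : ∀ n i j, (A ^ n) i j = ((M ^ n) i j : ℝ) := by
    intro n i j
    have := map_pow (Nat.castRingHom ℝ).mapMatrix M n
    have h2 := congrFun (congrFun this i) j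
    rw [hA]
    exact h2.symm
  have hAs : Aᵀ = A := by rw [hA, ← Matrix.transpose_map, hs]
  obtain ⟨ρ, h0, h1, h2, h3⟩ := spec A hAs (fun n i j => by rw [hp]; positivity)
  have hF : ∀ n, (F M n : ℝ) = (fun _ => (1:ℝ)) ⬝ᵥ ((A ^ n) *ᵥ fun _ => 1) := by
    intro n; simp [F, dotProduct, Matrix.mulVec, hp]
  refine ⟨ρ, h0, fun n => ?_, fun q => ?_, fun n => ?_, fun p => ?_⟩
  · rw [hF]
    refine (h1 n _).trans (le_of_eq ?_)
    simp [dotProduct, mul_comm]
  · have hq : (A ^ q)ᵀ = A ^ q := by rw [Matrix.transpose_pow, hAs]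
    have e : ∀ B : Matrix ι ι ℝ, (fun _ => (1:ℝ)) ⬝ᵥ ((A ^ q * B * A ^ q) *ᵥ fun _ => 1)
        = ((A ^ q) *ᵥ fun _ => 1) ⬝ᵥ (B *ᵥ ((A ^ q) *ᵥ fun _ => 1)) := by
      intro B
      rw [← Matrix.mulVec_mulVec, ← Matrix.mulVec_mulVec, Matrix.dotProduct_mulVec,
        ← Matrix.mulVec_transpose, hq]
    have e1 : A ^ (2 * q + 1) = A ^ q * A ^ 1 * A ^ q := by
      rw [← pow_add, ← pow_add]; congr 1; ring
    have e2 : A ^ (2 * q) = A ^ q * 1 * A ^ q := by
      rw [mul_one, ← pow_add]; congr 1; ring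
    rw [hF, hF, e1, e2, e, e, Matrix.one_mulVec]
    simpa using h1 1 ((A ^ q) *ᵥ fun _ => 1)
  · simpa [F, hp] using h2 n
  · simpa [P, hp] using h3 p

theorem I0 [Nonempty ι] (M : Matrix ι ι ℕ) (hs : Mᵀ = M) (n m : ℕ) (hn : 0 < n)
    (h : 0 < F M n) :
    m * Real.log (F M n) ≤ m * Real.log (Fintype.card ι) + n * Real.log (F M m) := by
  obtain ⟨ρ, h0, h1, -, h3, -⟩ := specN M hs
  have hF : (0:ℝ) < F M n := by exact_mod_cast h
  have hc : (0:ℝ) < Fintype.card ι := by exact_mod_cast Fintype.card_pos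
  have hρ : 0 < ρ := by
    rcases h0.lt_or_eq with h | h
    · exact h
    · have := h1 n
      rw [← h, zero_pow hn.ne', mul_zero] at this
      linarith
  have a1 := Real.log_le_log hF (h1 n)
  rw [Real.log_mul hc.ne' (pow_pos hρ n).ne', Real.log_pow] at a1
  have a2 := Real.log_le_log (pow_pos hρ m) (h3 m)
  rw [Real.log_pow] at a2
  have hm : (0:ℝ) ≤ m := Nat.cast_nonneg m
  have hn' : (0:ℝ) ≤ n := Nat.cast_nonneg n
  nlinarith [mul_le_mul_of_nonneg_left a1 hm, mul_le_mul_of_nonneg_left a2 hn']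

theorem I1 [Nonempty ι] (M : Matrix ι ι ℕ) (hs : Mᵀ = M) (n p : ℕ) (hn : 0 < n)
    (h : 0 < F M n) :
    (2 * p : ℕ) * Real.log (F M n)
      ≤ (2 * p : ℕ) * Real.log (Fintype.card ι) + n * Real.log (P M (2 * p)) := by
  obtain ⟨ρ, h0, h1, -, -, h3⟩ := specN M hs
  have hF : (0:ℝ) < F M n := by exact_mod_cast h
  have hc : (0:ℝ) < Fintype.card ι := by exact_mod_cast Fintype.card_pos
  have hρ : 0 < ρ := by
    rcases h0.lt_or_eq with h | h
    · exact h
    · have := h1 n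
      rw [← h, zero_pow hn.ne', mul_zero] at this
      linarith
  have a1 := Real.log_le_log hF (h1 n)
  rw [Real.log_mul hc.ne' (pow_pos hρ n).ne', Real.log_pow] at a1
  have a2 := Real.log_le_log (pow_pos hρ (2 * p)) (h3 p)
  rw [Real.log_pow] at a2
  have hm : (0:ℝ) ≤ (2 * p : ℕ) := Nat.cast_nonneg _
  have hn' : (0:ℝ) ≤ n := Nat.cast_nonneg n
  nlinarith [mul_le_mul_of_nonneg_left a1 hm, mul_le_mul_of_nonneg_left a2 hn']

theorem I2 [Nonempty ι] (M : Matrix ι ι ℕ) (hs : Mᵀ = M) (n q : ℕ)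
    (h : 0 < F M (2 * q + 1)) :
    n * Real.log (F M (2 * q + 1)) ≤ n * Real.log (F M (2 * q)) + Real.log (F M n) := by
  obtain ⟨ρ, h0, -, h2, h3, -⟩ := specN M hs
  have hF : (0:ℝ) < F M (2 * q + 1) := by exact_mod_cast h
  have hpos := hF.trans_le (h2 q)
  have hρ : 0 < ρ := by
    rcases h0.lt_or_eq with h | h
    · exact h
    · rw [← h, zero_mul] at hpos; exact absurd hpos (lt_irrefl _)
  have hF2 : (0:ℝ) < F M (2 * q) := (pos_iff_pos_of_mul_pos hpos).1 hρ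
  have a1 := Real.log_le_log hF (h2 q)
  rw [Real.log_mul hρ.ne' hF2.ne'] at a1
  have a2 := Real.log_le_log (pow_pos hρ n) (h3 n)
  rw [Real.log_pow] at a2
  have hn' : (0:ℝ) ≤ n := Nat.cast_nonneg n
  nlinarith [mul_le_mul_of_nonneg_left a1 hn']

theorem diag_mono (M : Matrix ι ι ℕ) (t : ι) (ht : 1 ≤ M t t) {a b : ℕ} (hab : a ≤ b) :
    (M ^ a) t t ≤ (M ^ b) t t := by
  induction hab with
  | refl => exact le_rfl
  | @step m _ ih =>
    refine ih.trans ?_
    rw [pow_succ, Matrix.mul_apply]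
    calc (M ^ m) t t ≤ (M ^ m) t t * M t t := Nat.le_mul_of_pos_right _ ht
      _ ≤ _ := Finset.single_le_sum (f := fun j => (M ^ m) t j * M j t)
          (fun _ _ => Nat.zero_le _) (Finset.mem_univ t)

theorem diag_two (M : Matrix ι ι ℕ) (hs : Mᵀ = M) (t : ι) (p : ℕ) :
    (M ^ (2 * p)) t t = ∑ s, (M ^ p) s t ^ 2 := by
  have hq : (M ^ p)ᵀ = M ^ p := by rw [Matrix.transpose_pow, hs]
  rw [two_mul, pow_add, Matrix.mul_apply]
  refine Finset.sum_congr rfl fun s _ => ?_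
  have := congrFun (congrFun hq s) t
  rw [Matrix.transpose_apply] at this
  rw [this, sq]

theorem I3 (M : Matrix ι ι ℕ) (hs : Mᵀ = M) (r : ι → ℕ) (hr : ∀ t, r t ≤ 1)
    (hd : ∀ t, r t ≤ M t t) {p n : ℕ} (hp : 2 * p ≤ n) :
    (∑ s, ∑ t, r t * (M ^ p) s t) ^ 2 ≤ Fintype.card ι ^ 2 * P M n := by
  have h1 : (∑ s, ∑ t, r t * (M ^ p) s t) ^ 2
      ≤ Fintype.card ι ^ 2 * ∑ s, ∑ t, (r t * (M ^ p) s t) ^ 2 := by
    rw [← Finset.sum_product', ← Finset.sum_product']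
    have := sq_sum_le_card_mul_sum_sq (s := (Finset.univ : Finset ι) ×ˢ (Finset.univ : Finset ι))
      (f := fun x => r x.2 * (M ^ p) x.1 x.2)
    simpa [sq] using this
  refine h1.trans (Nat.mul_le_mul_left _ ?_)
  rw [Finset.sum_comm]
  refine Finset.sum_le_sum fun t _ => ?_
  rcases Nat.le_one_iff_eq_zero_or_eq_one.1 (hr t) with h | h
  · simp [h]
  · have := hd t
    rw [h] at this
    simp only [h, one_mul]
    rw [← diag_two M hs]
    exact diag_mono M t this hp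

theorem I4 (M : Matrix ι ι ℕ) (hs : Mᵀ = M) (z : ι) (hz : 1 ≤ M z z) {b K p : ℕ}
    (hp : 2 * b * K ≤ p) :
    (∑ s, (M ^ b) s z) ^ (2 * K) ≤ Fintype.card ι ^ K * ∑ s, (M ^ p) s z := by
  have h1 : (∑ s, (M ^ b) s z) ^ 2 ≤ Fintype.card ι * (M ^ (2 * b)) z z := by
    rw [diag_two M hs]
    simpa using sq_sum_le_card_mul_sum_sq (s := (Finset.univ : Finset ι))
      (f := fun s => (M ^ b) s z)
  have h2 : ∀ K, (M ^ (2 * b)) z z ^ K ≤ (M ^ (2 * b * K)) z z := by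
    intro K
    induction K with
    | zero => simp
    | succ K ih =>
      rw [Nat.mul_succ, pow_add M, Matrix.mul_apply, pow_succ]
      calc _ ≤ (M ^ (2 * b * K)) z z * (M ^ (2 * b)) z z := Nat.mul_le_mul_right _ ih
        _ ≤ _ := Finset.single_le_sum (f := fun j => (M ^ (2 * b * K)) z j * (M ^ (2 * b)) j z)
          (fun _ _ => Nat.zero_le _) (Finset.mem_univ z)
  calc (∑ s, (M ^ b) s z) ^ (2 * K) = ((∑ s, (M ^ b) s z) ^ 2) ^ K := pow_mul _ _ _
    _ ≤ (Fintype.card ι * (M ^ (2 * b)) z z) ^ K := Nat.pow_le_pow_left h1 K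
    _ = Fintype.card ι ^ K * (M ^ (2 * b)) z z ^ K := mul_pow _ _ _
    _ ≤ Fintype.card ι ^ K * (M ^ p) z z :=
        Nat.mul_le_mul_left _ ((h2 K).trans (diag_mono M z hz hp))
    _ ≤ _ := Nat.mul_le_mul_left _ (Finset.single_le_sum (f := fun s => (M ^ p) s z)
          (fun _ _ => Nat.zero_le _) (Finset.mem_univ z))

theorem I5 (M : Matrix ι ι ℕ) (r : ι → ℕ) (k : ℕ)
    (h : ∀ s, ∃ t, 1 ≤ r t * (M ^ k) s t) (n : ℕ) :
    F M n ≤ ∑ s, ∑ t, r t * (M ^ (n + k)) s t := by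
  refine Finset.sum_le_sum fun s _ => ?_
  simp only [pow_add, Matrix.mul_apply, Finset.mul_sum]
  rw [Finset.sum_comm]
  refine Finset.sum_le_sum fun u _ => ?_
  obtain ⟨t, ht⟩ := h u
  calc (M ^ n) s u ≤ (M ^ n) s u * (r t * (M ^ k) u t) := Nat.le_mul_of_pos_right _ ht
    _ = r t * ((M ^ n) s u * (M ^ k) u t) := by ring
    _ ≤ _ := Finset.single_le_sum (f := fun t => r t * ((M ^ n) s u * (M ^ k) u t))
          (fun _ _ => Nat.zero_le _) (Finset.mem_univ t)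

theorem chain (M : Matrix ι ι ℕ) (Q : ℕ → ι) (h : ∀ t, 1 ≤ M (Q t) (Q (t + 1))) (k : ℕ) :
    1 ≤ (M ^ k) (Q 0) (Q k) := by
  induction k with
  | zero => simp
  | succ k ih =>
    rw [pow_succ, Matrix.mul_apply]
    calc 1 ≤ (M ^ k) (Q 0) (Q k) * M (Q k) (Q (k + 1)) := Nat.mul_pos ih (h k)
      _ ≤ _ := Finset.single_le_sum (f := fun j => (M ^ k) (Q 0) j * M j (Q (k + 1)))
          (fun _ _ => Nat.zero_le _) (Finset.mem_univ (Q k))

theorem CWup (M : Matrix ι ι ℕ) (v : ι → ℕ) (l : ℕ) (h1 : ∀ t, 1 ≤ v t)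
    (h : ∀ t, ∑ s, v s * M s t ≤ l * v t) (n : ℕ) : F M n ≤ l ^ n * ∑ t, v t := by
  have key : ∀ n t, ∑ s, v s * (M ^ n) s t ≤ l ^ n * v t := by
    intro n
    induction n with
    | zero => intro t; simp [Matrix.one_apply]
    | succ n ih =>
      intro t
      simp only [pow_succ M, Matrix.mul_apply, Finset.mul_sum]
      rw [Finset.sum_comm]
      calc ∑ u, ∑ s, v s * ((M ^ n) s u * M u t) = ∑ u, (∑ s, v s * (M ^ n) s u) * M u t := by
            simp only [Finset.sum_mul, mul_assoc]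
        _ ≤ ∑ u, l ^ n * v u * M u t :=
            Finset.sum_le_sum fun u _ => Nat.mul_le_mul_right _ (ih u)
        _ = l ^ n * ∑ u, v u * M u t := by simp only [Finset.mul_sum, mul_assoc]
        _ ≤ l ^ n * (l * v t) := Nat.mul_le_mul_left _ (h t)
        _ = _ := by ring
  rw [F, Finset.sum_comm, Finset.mul_sum]
  refine Finset.sum_le_sum fun t _ => le_trans (Finset.sum_le_sum fun s _ => ?_) (key n t)
  exact Nat.le_mul_of_pos_left _ (h1 s)

theorem CWlo (M : Matrix ι ι ℕ) (v : ι → ℕ) (l V : ℕ) (h1 : ∀ t, v t ≤ V)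
    (h : ∀ t, l * v t ≤ ∑ s, v s * M s t) (n : ℕ) : l ^ n * ∑ t, v t ≤ V * F M n := by
  have key : ∀ n t, l ^ n * v t ≤ ∑ s, v s * (M ^ n) s t := by
    intro n
    induction n with
    | zero => intro t; simp [Matrix.one_apply]
    | succ n ih =>
      intro t
      simp only [pow_succ M, Matrix.mul_apply, Finset.mul_sum]
      rw [Finset.sum_comm]
      calc l ^ (n + 1) * v t = l ^ n * (l * v t) := by ring
        _ ≤ l ^ n * ∑ u, v u * M u t := Nat.mul_le_mul_left _ (h t)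
        _ = ∑ u, l ^ n * v u * M u t := by simp only [Finset.mul_sum, mul_assoc]
        _ ≤ ∑ u, (∑ s, v s * (M ^ n) s u) * M u t :=
            Finset.sum_le_sum fun u _ => Nat.mul_le_mul_right _ (ih u)
        _ = _ := by simp only [Finset.sum_mul, mul_assoc]
  rw [F, Finset.sum_comm, Finset.mul_sum, Finset.mul_sum]
  refine Finset.sum_le_sum fun t _ => (key n t).trans ?_
  rw [Finset.mul_sum]
  exact Finset.sum_le_sum fun s _ => Nat.mul_le_mul_right _ (h1 s)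

end Pool.Agent.MP_7c8df0_mp
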