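import Pool.Agent.MP_7c8df0_mp.Lim

/-! Upper bound on the slab transfer matrix from a product test vector and the Schur test. -/

set_option linter.unusedSectionVars false

namespace Pool.Agent.MP_7c8df0_mp
open Matrix Finset

theorem schur {Y : Type} [Fintype Y] (N : Y → Y → ℝ) (hN : ∀ y y', 0 ≤ N y y') (α β : Y → ℝ)
    (hα : ∀ y, 0 < α y) (c : ℝ) (hc : 0 ≤ c) (h1 : ∀ y, ∑ y', N y y' * β y' ≤ c * α y)
    (h2 : ∀ y', ∑ y, N y y' * α y ≤ c * β y') (x : Y → ℝ) :
    ∑ y', (∑ y, x y * N y y') ^ 2 ≤ c ^ 2 * ∑ y, x y ^ 2 := by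
  calc ∑ y', (∑ y, x y * N y y') ^ 2
      ≤ ∑ y', c * β y' * ∑ y, N y y' * (x y ^ 2 / α y) := by
        refine Finset.sum_le_sum fun y' _ => ?_
        have hp : ∀ y, 0 ≤ N y y' * (x y ^ 2 / α y) := fun y =>
          mul_nonneg (hN _ _) (div_nonneg (sq_nonneg _) (hα y).le)
        refine (Finset.sum_sq_le_sum_mul_sum_of_sq_le_mul Finset.univ
          (f := fun y => N y y' * α y) (g := fun y => N y y' * (x y ^ 2 / α y))
          (fun y _ => mul_nonneg (hN _ _) (hα y).le) (fun y _ => hp y) fun y _ => ?_).trans ?_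
        · have := (hα y).ne'
          exact le_of_eq (by field_simp)
        · exact mul_le_mul_of_nonneg_right (h2 y') (Finset.sum_nonneg fun y _ => hp y)
    _ = c * ∑ y, (x y ^ 2 / α y) * ∑ y', N y y' * β y' := by
        simp only [Finset.mul_sum]
        rw [Finset.sum_comm]
        exact Finset.sum_congr rfl fun _ _ => Finset.sum_congr rfl fun _ _ => by ring
    _ ≤ c * ∑ y, (x y ^ 2 / α y) * (c * α y) := by
        refine mul_le_mul_of_nonneg_left (Finset.sum_le_sum fun y _ => ?_) hc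
        exact mul_le_mul_of_nonneg_left (h1 y) (div_nonneg (sq_nonneg _) (hα y).le)
    _ = _ := by
        rw [sq c, mul_assoc, Finset.mul_sum, Finset.mul_sum, Finset.mul_sum]
        refine Finset.sum_congr rfl fun y _ => ?_
        have := (hα y).ne'
        field_simp

theorem prod_rev {Y : Type} [Fintype Y] [DecidableEq Y] (J : Y ≃ Y) (l : List (Matrix Y Y ℕ))
    (h : ∀ M ∈ l, ∀ y y', M y y' = M (J y') (J y)) (y y' : Y) :
    l.reverse.prod y y' = l.prod (J y') (J y) := by
  induction l generalizing y y' with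
  | nil => simp [Matrix.one_apply, eq_comm]
  | cons M l ih =>
    rw [List.reverse_cons, List.prod_append, List.prod_singleton, List.prod_cons,
      Matrix.mul_apply, Matrix.mul_apply]
    refine Fintype.sum_equiv J _ _ fun u => ?_
    rw [ih (fun M hM => h M (List.mem_cons_of_mem _ hM)), h M List.mem_cons_self u y', mul_comm]

theorem ofFn_rev {α : Type} {k : ℕ} (f : Fin k → α) :
    List.ofFn (fun j => f j.rev) = (List.ofFn f).reverse := by
  refine List.ext_getElem (by simp) fun i h1 h2 => ?_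
  simp only [List.getElem_ofFn, List.getElem_reverse, List.length_ofFn]
  congr 1
  ext
  simp only [Fin.val_rev]
  omega

variable {S : Type} [Fintype S] [DecidableEq S] [Nonempty S] (m : Model S)

/-- Arrow reversal on a row of edges. -/
def ngR (l : ℕ) : (Fin l → S) ≃ (Fin l → S) := Equiv.piCongrRight fun _ => ngE m

theorem G_rev (k l : ℕ) (b3 : S → S → ℕ) (s t : Fin k → Fin l → S) (y y' : Fin l → S) :
    G m k l b3 (fun j => s j.rev) (fun j => t j.rev) y y'
      = G m k l b3 s t (ngR m l y') (ngR m l y) := by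
  unfold G
  rw [ofFn_rev fun j => A m l b3 (s j) (t j)]
  refine prod_rev _ _ (fun M hM y y' => ?_) y y'
  obtain ⟨j, rfl⟩ := List.mem_ofFn.1 hM
  exact A_flip ..

theorem G_append (k1 k2 l : ℕ) (b3 : S → S → ℕ) (s1 t1 : Fin k1 → Fin l → S)
    (s2 t2 : Fin k2 → Fin l → S) :
    G m (k1 + k2) l b3 (Fin.append s1 s2) (Fin.append t1 t2)
      = G m k1 l b3 s1 t1 * G m k2 l b3 s2 t2 := by
  unfold G
  rw [← List.prod_append, ← List.ofFn_fin_append]
  congr 2
  funext j
  refine Fin.addCases (fun i => ?_) (fun i => ?_) j <;> simp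

/-- A block of rows summed against a test function. -/
def NB (k l : ℕ) (b3 : S → S → ℕ) (φ : (Fin k → Fin l → S) → ℕ) (a : Fin k → Fin l → S)
    (y y' : Fin l → S) : ℕ := ∑ a', φ a' * G m k l b3 a' a y y'

/-- The product test vector. -/
def pv {α : Type} (k : ℕ) (φ : (Fin k → α) → ℕ) : (n : ℕ) → (Fin (k * n) → α) → ℕ
  | 0, _ => 1
  | n + 1, s => pv k φ n (fun i => s (Fin.castAdd k i)) * φ fun j => s (Fin.natAdd (k * n) j)

theorem slab_up (k l : ℕ) (b3 : S → S → ℕ) (φ : (Fin k → Fin l → S) → ℕ)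
    (β : (Fin k → Fin l → S) → (Fin l → S) → ℕ) (c d : ℕ) (hd : 0 < d) (hdc : d ≤ c)
    (hφ : ∀ a, 1 ≤ φ a)
    (hr : ∀ a, φ (fun j => a j.rev) = φ a) (hβ : ∀ a y, 1 ≤ β a y)
    (h : ∀ a y, d * ∑ y', NB m k l b3 φ a y y' * β a y'
      ≤ c * φ a * β (fun j => a j.rev) (ngR m l y)) (n : ℕ) :
    ∃ L : ℕ, 0 < L ∧ Up (T m (k * n) fr l b3) L ∧ Real.log L
      ≤ Real.log (2 * Fintype.card (Fin l → S)) + n * Real.log (c / d) := by
  have d0 : (0:ℝ) < d := by exact_mod_cast hd
  have cd : (1:ℝ) ≤ c / d := by rw [le_div_iff₀ d0, one_mul]; exact_mod_cast hdc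
  have hR : ∀ a y, ∑ y', (NB m k l b3 φ a y y' : ℝ) * β a y'
      ≤ c / d * φ a * β (fun j => a j.rev) (ngR m l y) := by
    intro a y
    rw [div_mul_eq_mul_div, div_mul_eq_mul_div, le_div_iff₀' d0]
    exact_mod_cast h a y
  have hN : ∀ a y y', NB m k l b3 φ (fun j => a j.rev) y y'
      = NB m k l b3 φ a (ngR m l y') (ngR m l y) := by
    intro a y y'
    unfold NB
    symm
    refine Fintype.sum_equiv (Equiv.arrowCongr Fin.revPerm (Equiv.refl _)) _ _ fun a' => ?_
    rw [← G_rev, ← hr a']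
    rfl
  have hJ : ∀ y, ngR m l (ngR m l y) = y := fun y => funext fun j => m.ng_ng _
  have hS : ∀ (a : Fin k → Fin l → S) (x : (Fin l → S) → ℝ),
      ∑ y', (∑ y, x y * (NB m k l b3 φ a y y' : ℝ)) ^ 2
      ≤ (c / d * φ a : ℝ) ^ 2 * ∑ y, x y ^ 2 := by
    intro a x
    refine schur _ (fun _ _ => Nat.cast_nonneg _)
      (fun y => (β (fun j => a j.rev) (ngR m l y) : ℝ)) (fun y => (β a y : ℝ))
      (fun y => by exact_mod_cast hβ _ _) _ (by positivity) (hR a) (fun y' => ?_) x
    have := hR (fun j => a j.rev) (ngR m l y')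
    simp only [Fin.rev_rev, hJ, hr a, hN] at this
    rw [← Equiv.sum_comp (ngR m l)] at this
    simp only [hJ] at this
    exact this
  have key : ∀ n (s : Fin (k * n) → Fin l → S),
      ∑ y', (∑ y, ((∑ s', pv k φ n s' * G m (k * n) l b3 s' s y y' : ℕ) : ℝ)) ^ 2
        ≤ ((c / d : ℝ) ^ n * pv k φ n s) ^ 2 * Fintype.card (Fin l → S) := by
    intro n
    induction n with
    | zero =>
      intro s
      have : Unique (Fin (k * 0) → Fin l → S) := Pi.uniqueOfIsEmpty (α := Fin 0) _
      simp [pv, G, Matrix.one_apply]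
    | succ n ih =>
      intro s
      obtain ⟨⟨s1, s2⟩, rfl⟩ := (Fin.appendEquiv (k * n) k).surjective s
      have e : ∀ y y', (∑ s', pv k φ (n + 1) s' *
            G m (k * (n + 1)) l b3 s' (Fin.appendEquiv (k * n) k (s1, s2)) y y')
          = ∑ u, (∑ s', pv k φ n s' * G m (k * n) l b3 s' s1 y u) * NB m k l b3 φ s2 u y' := by
        intro y y'
        refine (Equiv.sum_comp (Fin.appendEquiv (k * n) k) _).symm.trans ?_
        rw [Fintype.sum_prod_type]
        have : ∀ t1 t2, pv k φ (n + 1) (Fin.appendEquiv (k * n) k (t1, t2)) *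
            G m (k * (n + 1)) l b3 (Fin.appendEquiv (k * n) k (t1, t2))
              (Fin.appendEquiv (k * n) k (s1, s2)) y y'
            = ∑ u, (pv k φ n t1 * G m (k * n) l b3 t1 s1 y u) * (φ t2 * G m k l b3 t2 s2 u y') := by
          intro t1 t2
          have g := G_append m (k * n) k l b3 t1 s1 t2 s2
          have g2 : pv k φ (n + 1) (Fin.append t1 t2) = pv k φ n t1 * φ t2 := by
            simp [pv]
          refine (congrArg₂ (· * ·) g2 (congrFun (congrFun g y) y')).trans ?_
          rw [Matrix.mul_apply, Finset.mul_sum]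
          exact Finset.sum_congr rfl fun u _ => by ring
        simp only [this, NB, Finset.sum_mul, Finset.mul_sum]
        conv_rhs => rw [Finset.sum_comm]
        conv_lhs => rw [Finset.sum_comm]
        exact Finset.sum_congr rfl fun _ _ => Finset.sum_comm
      have g2 : pv k φ (n + 1) (Fin.appendEquiv (k * n) k (s1, s2)) = pv k φ n s1 * φ s2 := by
        show pv k φ (n + 1) (Fin.append s1 s2) = _
        simp [pv]
      simp only [e, g2]
      have := hS s2 fun u => ∑ y, ((∑ s', pv k φ n s' * G m (k * n) l b3 s' s1 y u : ℕ) : ℝ)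
      refine le_trans (le_of_eq ?_) (this.trans ((mul_le_mul_of_nonneg_left (ih s1)
        (sq_nonneg _)).trans (le_of_eq ?_)))
      · refine Finset.sum_congr rfl fun y' _ => ?_
        congr 1
        simp only [Finset.sum_mul]
        rw [Finset.sum_comm]
        refine Finset.sum_congr rfl fun u _ => ?_
        push_cast
        simp only [Finset.sum_mul]
      · push_cast; ring
  have hv : ∀ n s, 1 ≤ pv k φ n s := by
    intro n
    induction n with
    | zero => intro s; exact le_rfl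
    | succ n ih => intro s; exact Nat.mul_pos (ih _) (hφ _)
  have c0 : (1:ℝ) ≤ Fintype.card (Fin l → S) := by exact_mod_cast Fintype.card_pos
  have c1 : (1:ℝ) ≤ Fintype.card (Fin l → S) * (c / d : ℝ) ^ n :=
    one_le_mul_of_one_le_of_one_le c0 (one_le_pow₀ cd)
  have c2 : 0 < ⌈(Fintype.card (Fin l → S) : ℝ) * (c / d : ℝ) ^ n⌉₊ :=
    Nat.ceil_pos.2 (by linarith)
  refine ⟨_, c2, ⟨_, CWup _ (pv k φ n) _ (hv n) fun t => ?_⟩, ?_⟩
  · have h1 := key n t
    have h2 := sq_sum_le_card_mul_sum_sq (s := (Finset.univ : Finset (Fin l → S)))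
      (f := fun y' => ∑ y, ((∑ s', pv k φ n s' * G m (k * n) l b3 s' t y y' : ℕ) : ℝ))
    have h3 := h2.trans (mul_le_mul_of_nonneg_left h1 (Nat.cast_nonneg _))
    have h4 : ∑ y', ∑ y, ((∑ s', pv k φ n s' * G m (k * n) l b3 s' t y y' : ℕ) : ℝ)
        ≤ (Fintype.card (Fin l → S) : ℝ) * (c / d : ℝ) ^ n * pv k φ n t := by
      refine le_of_sq_le_sq ?_ (by positivity)
      refine h3.trans (le_of_eq ?_)
      rw [Finset.card_univ]; ring
    have h5 : ∑ y', ∑ y, (∑ s', pv k φ n s' * G m (k * n) l b3 s' t y y')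
        ≤ ⌈(Fintype.card (Fin l → S) : ℝ) * (c / d : ℝ) ^ n⌉₊ * pv k φ n t := by
      exact_mod_cast h4.trans (mul_le_mul_of_nonneg_right (Nat.le_ceil _) (Nat.cast_nonneg _))
    refine le_trans (le_of_eq ?_) h5
    simp only [T_eq, fr, Finset.prod_const_one, one_mul, Finset.mul_sum]
    rw [Finset.sum_comm]
    conv_rhs => rw [Finset.sum_comm]
    exact Finset.sum_congr rfl fun _ _ => Finset.sum_comm
  · rw [← Real.log_pow, ← Real.log_mul (by positivity) (by positivity)]
    refine Real.log_le_log (by exact_mod_cast c2) ?_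
    have := (Nat.ceil_lt_add_one (zero_le_one.trans c1)).le
    linarith

end Pool.Agent.MP_7c8df0_mp
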